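import Pool.Agent.LibHK65.Defs

/-!
[HK65 A1] SHORT. The determinant of a hermitian matrix `≥ t` is at least `t^d` (helper65).

Plan. `hB.det_eq_prod_eigenvalues`: `det = ∏ eigenvalues` (real); each eigenvalue is
`re (star v ⬝ᵥ B *ᵥ v)` for the unit eigenvector `v` (`Matrix.IsHermitian.eigenvalues_eq`), `∑ ‖v i‖^2 = 1`
(`hB.eigenvectorBasis` is orthonormal, `EuclideanSpace.norm_eq`), so it is `≥ t`; `Finset.pow_card_le_prod`
or `Finset.prod_le_prod` against the constant `t`.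
-/

set_option autoImplicit false

open MeasureTheory
open scoped InnerProductSpace ComplexOrder

namespace Pool.Agent.LibHK65

open Pool.Agent.LibTK94

theorem det_re_ge {d : ℕ} {B : Matrix (Fin d) (Fin d) ℂ} (hB : B.IsHermitian) {t : ℝ}
    (ht : 0 ≤ t)
    (h : ∀ v : Fin d → ℂ, t * ∑ i, ‖v i‖ ^ 2 ≤ (star v ⬝ᵥ (B.mulVec v)).re) :
    t ^ d ≤ B.det.re := by
  have h1 : B.det.re = ∏ i, hB.eigenvalues i := by
    have h0 : B.det = ((∏ i, hB.eigenvalues i : ℝ) : ℂ) := by
      rw [hB.det_eq_prod_eigenvalues, Complex.ofReal_prod]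
      rfl
    rw [h0, Complex.ofReal_re]
  have h2 : ∀ i, t ≤ hB.eigenvalues i := by
    intro i
    have h3 := h (hB.eigenvectorBasis i)
    have h4 : ∑ j, ‖(hB.eigenvectorBasis i) j‖ ^ 2 = 1 := by
      rw [← EuclideanSpace.norm_sq_eq, hB.eigenvectorBasis.orthonormal.1 i, one_pow]
    rw [h4, mul_one] at h3
    rw [hB.eigenvalues_eq]
    exact h3
  rw [h1]
  calc t ^ d = ∏ _i : Fin d, t := by
        rw [Finset.prod_const, Finset.card_univ, Fintype.card_fin]
    _ ≤ ∏ i, hB.eigenvalues i := Finset.prod_le_prod (fun _ _ => ht) fun i _ => h2 i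

end Pool.Agent.LibHK65
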