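import Pool.Agent.LibHK65.A1

/-!
[HK65 A2] MEDIUM. `W p = det (A p)` satisfies `Low` when `A` is affine in `p`, hermitian, and
positive definite in the interior of the hull (helper65). Cites A1 `det_re_ge`,
LibTK94.Vol `interior_nonempty`.

Plan. For `v : Fin d → ℂ` put `Q v p = re (star v ⬝ᵥ (A p).mulVec v)`: affine and continuous in `p` by
`hAff` (`Q v ((1-s)•p + s•q') = (1-s) Q v p + s Q v q'`).
(1) `0 ≤ Q v p` on the hull: it is `> 0` (or `v = 0`) on the interior, the hull is in the closure of its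
interior (`Convex.closure_interior_eq_closure_of_nonempty_interior`, nonempty by `interior_nonempty`), closedness.
Or without closures: for `p` in the hull and `q'` interior, `(1-s)•p + s•q'` is interior for `0 < s ≤ 1`
(`Convex.combo_self_interior_mem_interior` or so), so `(1-s) Q v p + s Q v q' ≥ 0`, let `s → 0`.
(2) interior point `q0`, radius `ρ` with `closedBall q0 ρ ⊆ interior` ; the function `(p, v) ↦ Q v p` is
continuous and `> 0` on the compact set `closedBall q0 ρ ×ˢ {v | ∑ ‖v i‖^2 = 1}`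
(closed and bounded in `Fin d → ℂ`), so it is `≥ δ > 0` there (if the set is empty, `d = 0`, take `δ = 1`);
by homogeneity `δ ∑ ‖v i‖^2 ≤ Q v q'` for all `v`, all `q'` in the ball.
(3) `Q v ((1-s)•p + s•q') ≥ s Q v q' ≥ (δ s) ∑ ‖v i‖^2`; apply `det_re_ge` with `t = δ * s`.
-/

set_option autoImplicit false

open MeasureTheory
open scoped InnerProductSpace ComplexOrder

namespace Pool.Agent.LibHK65

open Pool.Agent.LibTK94

/-- the quadratic form of a matrix, real part -/
private noncomputable def qf {d : ℕ} (B : Matrix (Fin d) (Fin d) ℂ) (v : Fin d → ℂ) : ℝ :=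
  (star v ⬝ᵥ (B.mulVec v)).re

private theorem qf_cont {d : ℕ} (B : Matrix (Fin d) (Fin d) ℂ) : Continuous (qf B) := by
  unfold qf
  exact Complex.continuous_re.comp
    (Continuous.dotProduct continuous_star (Continuous.matrix_mulVec continuous_const continuous_id))

private theorem qf_aff {n d : ℕ} (A0 : Matrix (Fin d) (Fin d) ℂ)
    (A1 : Fin n → Matrix (Fin d) (Fin d) ℂ) (p : V n) (v : Fin d → ℂ) :
    qf (A0 + ∑ k, ((p k : ℝ) : ℂ) • A1 k) v = qf A0 v + ∑ k, p k * qf (A1 k) v := by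
  unfold qf
  rw [Matrix.add_mulVec, Matrix.sum_mulVec, dotProduct_add, dotProduct_sum, Complex.add_re,
    Complex.re_sum]
  congr 1
  refine Finset.sum_congr rfl fun k _ => ?_
  rw [Matrix.smul_mulVec, dotProduct_smul, smul_eq_mul, Complex.re_ofReal_mul]

private theorem qf_smul {d : ℕ} (B : Matrix (Fin d) (Fin d) ℂ) (r : ℝ) (v : Fin d → ℂ) :
    qf B ((r : ℂ) • v) = r ^ 2 * qf B v := by
  unfold qf
  rw [Matrix.mulVec_smul, dotProduct_smul, star_smul, smul_dotProduct, smul_eq_mul, smul_eq_mul,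
    Complex.star_def, Complex.conj_ofReal, Complex.re_ofReal_mul, Complex.re_ofReal_mul]
  ring

private theorem sphere_compact (d : ℕ) : IsCompact {v : Fin d → ℂ | ∑ i, ‖v i‖ ^ 2 = 1} := by
  refine Metric.isCompact_of_isClosed_isBounded ?_ ?_
  · refine isClosed_eq ?_ continuous_const
    exact continuous_finsetSum _ fun i _ => (continuous_norm.comp (continuous_apply i)).pow 2
  · refine (Metric.isBounded_closedBall (x := (0 : Fin d → ℂ)) (r := 1)).subset ?_
    intro v hv
    rw [mem_closedBall_zero_iff, pi_norm_le_iff_of_nonneg zero_le_one]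
    intro i
    have h1 : ‖v i‖ ^ 2 ≤ ∑ j, ‖v j‖ ^ 2 :=
      Finset.single_le_sum (f := fun j => ‖v j‖ ^ 2) (fun j _ => by positivity)
        (Finset.mem_univ i)
    rw [hv] at h1
    have h2 := norm_nonneg (v i)
    nlinarith

theorem low_of_affine {n d : ℕ} {M : Finset (V n)} (hM : M.Nonempty) (hS : Spans M)
    (A0 : Matrix (Fin d) (Fin d) ℂ) (A1 : Fin n → Matrix (Fin d) (Fin d) ℂ)
    (hH0 : A0.IsHermitian) (hH1 : ∀ k, (A1 k).IsHermitian)
    (hpos : ∀ p ∈ interior (convexHull ℝ (M : Set (V n))),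
      (A0 + ∑ k, ((p k : ℝ) : ℂ) • A1 k).PosDef) :
    Low M (fun p => (A0 + ∑ k, ((p k : ℝ) : ℂ) • A1 k).det.re) d := by
  classical
  set A : V n → Matrix (Fin d) (Fin d) ℂ := fun p => A0 + ∑ k, ((p k : ℝ) : ℂ) • A1 k with hA
  have hHerm : ∀ p, (A p).IsHermitian := by
    intro p
    refine hH0.add ?_
    unfold Matrix.IsHermitian
    rw [Matrix.conjTranspose_sum]
    refine Finset.sum_congr rfl fun k _ => ?_
    rw [Matrix.conjTranspose_smul, (hH1 k).eq, Complex.star_def, Complex.conj_ofReal]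
  have hQ : ∀ p v, qf (A p) v = qf A0 v + ∑ k, p k * qf (A1 k) v := fun p v => qf_aff A0 A1 p v
  have hcomb : ∀ (s : ℝ) (p q : V n) (v : Fin d → ℂ),
      qf (A ((1 - s) • p + s • q)) v = (1 - s) * qf (A p) v + s * qf (A q) v := by
    intro s p q v
    rw [hQ, hQ, hQ]
    have h1 : ∑ k, ((1 - s) • p + s • q) k * qf (A1 k) v =
        (1 - s) * ∑ k, p k * qf (A1 k) v + s * ∑ k, q k * qf (A1 k) v := by
      rw [Finset.mul_sum, Finset.mul_sum, ← Finset.sum_add_distrib]
      refine Finset.sum_congr rfl fun k _ => ?_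
      have h2 : ((1 - s) • p + s • q) k = (1 - s) * p k + s * q k := rfl
      rw [h2]
      ring
    rw [h1]
    ring
  obtain ⟨q0, hq0⟩ := interior_nonempty hM hS
  have hpi : ∀ p ∈ interior (convexHull ℝ (M : Set (V n))), ∀ v : Fin d → ℂ, v ≠ 0 →
      0 < qf (A p) v := fun p hp v hv => (hpos p hp).re_dotProduct_pos hv
  have hpi0 : ∀ p ∈ interior (convexHull ℝ (M : Set (V n))), ∀ v : Fin d → ℂ,
      0 ≤ qf (A p) v := by
    intro p hp v
    rcases eq_or_ne v 0 with rfl | hv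
    · simp [qf]
    · exact (hpi p hp v hv).le
  have hnn : ∀ p ∈ convexHull ℝ (M : Set (V n)), ∀ v : Fin d → ℂ, 0 ≤ qf (A p) v := by
    intro p hp v
    by_contra hneg
    push Not at hneg
    have h2 := hpi0 q0 hq0 v
    set e := -qf (A p) v with he
    set f := qf (A q0) v with hf
    have he0 : 0 < e := by linarith
    have hef : 0 < 2 * (e + f) := by linarith
    have hs0 : 0 < e / (2 * (e + f)) := div_pos he0 hef
    have hs1 : e / (2 * (e + f)) < 1 := by
      rw [div_lt_one hef]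
      linarith
    have h3 := (convex_convexHull ℝ (M : Set (V n))).combo_self_interior_mem_interior hp hq0
      (a := 1 - e / (2 * (e + f))) (b := e / (2 * (e + f))) (by linarith) hs0 (by ring)
    have h4 := hpi0 _ h3 v
    rw [hcomb] at h4
    have h5 : e / (2 * (e + f)) * (2 * (e + f)) = e := div_mul_cancel₀ _ hef.ne'
    have h6 : qf (A p) v = -e := by rw [he]; ring
    rw [h6, ← hf] at h4
    nlinarith
  obtain ⟨ρ0, hρ0, hball⟩ := Metric.isOpen_iff.1 isOpen_interior q0 hq0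
  have hcb : Metric.closedBall q0 (ρ0 / 2) ⊆ interior (convexHull ℝ (M : Set (V n))) :=
    (Metric.closedBall_subset_ball (by linarith)).trans hball
  have hδ : ∃ δ > (0 : ℝ), ∀ q ∈ Metric.closedBall q0 (ρ0 / 2), ∀ v : Fin d → ℂ,
      ∑ i, ‖v i‖ ^ 2 = 1 → δ ≤ qf (A q) v := by
    rcases Set.eq_empty_or_nonempty {v : Fin d → ℂ | ∑ i, ‖v i‖ ^ 2 = 1} with h0 | ⟨v0, hv0⟩
    · refine ⟨1, one_pos, fun q _ v hv => ?_⟩
      have h1 : v ∈ {v : Fin d → ℂ | ∑ i, ‖v i‖ ^ 2 = 1} := hv
      rw [h0] at h1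
      exact absurd h1 (Set.notMem_empty v)
    · have hK := (isCompact_closedBall q0 (ρ0 / 2)).prod (sphere_compact d)
      have hcont : Continuous fun x : V n × (Fin d → ℂ) => qf (A x.1) x.2 := by
        simp only [hQ]
        refine ((qf_cont A0).comp continuous_snd).add ?_
        refine continuous_finsetSum _ fun k _ => ?_
        refine Continuous.mul ?_ ((qf_cont (A1 k)).comp continuous_snd)
        exact (EuclideanSpace.proj (𝕜 := ℝ) k).continuous.comp continuous_fst
      obtain ⟨x, hx, hmin⟩ := hK.exists_isMinOn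
        ⟨(q0, v0), Metric.mem_closedBall_self (by linarith), hv0⟩ hcont.continuousOn
      refine ⟨qf (A x.1) x.2, ?_, fun q hq v hv => ?_⟩
      · refine hpi x.1 (hcb hx.1) x.2 ?_
        intro hx0
        have h1 : ∑ i, ‖x.2 i‖ ^ 2 = 1 := hx.2
        rw [hx0] at h1
        simp at h1
      · exact hmin (show (q, v) ∈ _ from ⟨hq, hv⟩)
  obtain ⟨δ, hδ0, hδ⟩ := hδ
  have hδ' : ∀ q ∈ Metric.closedBall q0 (ρ0 / 2), ∀ v : Fin d → ℂ,
      δ * ∑ i, ‖v i‖ ^ 2 ≤ qf (A q) v := by
    intro q hq v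
    have hS0 : 0 ≤ ∑ i, ‖v i‖ ^ 2 := Finset.sum_nonneg fun i _ => by positivity
    rcases hS0.eq_or_lt with h0 | h0
    · rw [← h0, mul_zero]
      exact hnn q (interior_subset (hcb hq)) v
    · set r := Real.sqrt (∑ i, ‖v i‖ ^ 2) with hr
      have hr0 : 0 < r := Real.sqrt_pos.2 h0
      have hr2 : r ^ 2 = ∑ i, ‖v i‖ ^ 2 := Real.sq_sqrt hS0
      have h1 : ∑ i, ‖(((r⁻¹ : ℝ) : ℂ) • v) i‖ ^ 2 = 1 := by
        have h2 : ∀ i, ‖(((r⁻¹ : ℝ) : ℂ) • v) i‖ ^ 2 = (r⁻¹) ^ 2 * ‖v i‖ ^ 2 := by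
          intro i
          rw [Pi.smul_apply, norm_smul, Complex.norm_real, Real.norm_eq_abs, mul_pow, sq_abs]
        rw [Finset.sum_congr rfl fun i _ => h2 i, ← Finset.mul_sum, ← hr2]
        field_simp
      have h2 := hδ q hq _ h1
      rw [qf_smul] at h2
      rw [← hr2]
      have h3 : δ * r ^ 2 ≤ (r⁻¹) ^ 2 * qf (A q) v * r ^ 2 :=
        mul_le_mul_of_nonneg_right h2 (by positivity)
      have h4 : (r⁻¹) ^ 2 * qf (A q) v * r ^ 2 = qf (A q) v := by
        field_simp
      rwa [h4] at h3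
  refine ⟨q0, ρ0 / 2, by linarith, δ, hδ0, Metric.ball_subset_closedBall.trans hcb, ?_⟩
  intro p hp q' hq' s hs0 hs1
  refine det_re_ge (hHerm _) (mul_nonneg hδ0.le hs0) fun v => ?_
  have h1 := hcomb s p q' v
  have h2 := hnn p hp v
  have h3 := hδ' q' (Metric.ball_subset_closedBall hq') v
  have h4 : δ * s * ∑ i, ‖v i‖ ^ 2 ≤ qf (A ((1 - s) • p + s • q')) v := by
    rw [h1]
    nlinarith [mul_nonneg (sub_nonneg.2 hs1) h2, mul_le_mul_of_nonneg_left h3 hs0]
  exact h4

end Pool.Agent.LibHK65
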