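import Pool.Agent.LibHK65.Defs

/-!
[HK65 A3] MEDIUM. `Tail` from an exponentially small weighted mass (helper65). Compare
LibTK94.Area `tail_of_mass` and LibTK94.Vol `vol_ge` (same proof with a weight; `Vol_sub`, `Area_abs` are
private there: copy them).

Plan. Let `q0, ρ, δ` from `hW`, `D` with `dist a b ≤ D` on the hull, `s = r/(D+2) ≤ 1`, WLOG `ρ ≤ 1`
(shrink the ball). For `p` in the hull and `0 < r ≤ 1` the ball `ball ((1-s)•p + s•q0) (s ρ)` is contained in
`interior hull ∩ ball p r`, each of its points is `(1-s)•p + s•q'` with `q' ∈ ball q0 ρ`, so `W ≥ (δ s)^d` there.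
If `R ≥ 0` and `∀ y, dist (G y) p < r → R ≤ ‖y‖`, this ball is in `G '' {y | R ≤ ‖y‖}`
(`surj_of_interior`), so
`ofReal ((δ s)^d) * volume (ball _ (s ρ)) ≤ ∫⁻ q in G '' {y | R ≤ ‖y‖}, ofReal (W q)
 = ∫⁻ y in {y | R ≤ ‖y‖}, ofReal |det G'(y)| * ofReal (W (G y))
 = ∫⁻ y in .., ofReal ((H y).det * W (G y)) ≤ ofReal (C exp (-(ε R)))`
(`MeasureTheory.lintegral_image_eq_lintegral_abs_det_fderiv_mul`, `inj_of_reg`, `ENNReal.ofReal_mul`), and the left
side is `ofReal (κ r^(n+d))`, `κ = (δ/(D+2))^d (ρ/(D+2))^n (volume (ball 0 1)).toReal`.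
-/

set_option autoImplicit false

open MeasureTheory
open scoped InnerProductSpace ComplexOrder

namespace Pool.Agent.LibHK65

open Pool.Agent.LibTK94

private theorem A3_det {n : ℕ} (A : Matrix (Fin n) (Fin n) ℝ) :
    (LinearMap.toContinuousLinearMap (Matrix.toEuclideanLin A)).det = A.det := by
  show LinearMap.det (Matrix.toEuclideanLin A) = A.det
  rw [Matrix.toEuclideanLin_eq_toLin_orthonormal, LinearMap.det_toLin]

private theorem A3_abs {n : ℕ} {A : Matrix (Fin n) (Fin n) ℝ} (hA : A.PosDef) :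
    ENNReal.ofReal |(LinearMap.toContinuousLinearMap (Matrix.toEuclideanLin A)).det|
      = ENNReal.ofReal A.det := by
  rw [A3_det, abs_of_pos hA.det_pos]

private theorem A3_sub {n : ℕ} {S : Set (V n)} (hS : Convex ℝ S) {q0 : V n} {ρ : ℝ} (hρ1 : ρ ≤ 1)
    (hb : Metric.ball q0 ρ ⊆ S) {D : ℝ} (hD0 : 0 ≤ D)
    (hD : ∀ a ∈ S, ∀ b ∈ S, dist a b ≤ D) (hρ : 0 < ρ) {p : V n} (hp : p ∈ S) {r : ℝ} (hr : 0 < r)
    (hr1 : r ≤ 1) :
    Metric.ball ((1 - r / (D + 2)) • p + (r / (D + 2)) • q0) (r / (D + 2) * ρ) ⊆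
      interior S ∩ Metric.ball p r ∧
    ∀ y ∈ Metric.ball ((1 - r / (D + 2)) • p + (r / (D + 2)) • q0) (r / (D + 2) * ρ),
      ∃ q' ∈ Metric.ball q0 ρ, y = (1 - r / (D + 2)) • p + (r / (D + 2)) • q' := by
  set s : ℝ := r / (D + 2) with hs
  have hD2 : 0 < D + 2 := by linarith
  have hs0 : 0 < s := div_pos hr hD2
  have hs1 : s ≤ 1 := by
    rw [hs, div_le_one hD2]
    linarith
  have hsr : s * (D + 2) = r := div_mul_cancel₀ _ hD2.ne'
  have hq0 : q0 ∈ S := hb (Metric.mem_ball_self hρ)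
  have h0 : ∀ y ∈ Metric.ball ((1 - s) • p + s • q0) (s * ρ),
      ∃ q' ∈ Metric.ball q0 ρ, y = (1 - s) • p + s • q' := by
    intro y hy
    rw [Metric.mem_ball, dist_eq_norm] at hy
    refine ⟨q0 + s⁻¹ • (y - ((1 - s) • p + s • q0)), ?_, ?_⟩
    · rw [Metric.mem_ball, dist_eq_norm, add_sub_cancel_left, norm_smul, norm_inv,
        Real.norm_of_nonneg hs0.le, inv_mul_lt_iff₀ hs0]
      exact hy
    · rw [smul_add, smul_smul, mul_inv_cancel₀ hs0.ne', one_smul]
      abel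
  have h1 : Metric.ball ((1 - s) • p + s • q0) (s * ρ) ⊆ S := by
    intro y hy
    obtain ⟨q', hq', rfl⟩ := h0 y hy
    exact hS hp (hb hq') (by linarith : (0 : ℝ) ≤ 1 - s) hs0.le (by ring)
  refine ⟨Set.subset_inter (interior_maximal h1 Metric.isOpen_ball) ?_, h0⟩
  intro y hy
  rw [Metric.mem_ball, dist_eq_norm] at hy ⊢
  have h2 : y - p = (y - ((1 - s) • p + s • q0)) + s • (q0 - p) := by
    rw [sub_smul, one_smul, smul_sub]
    abel
  have h3 : ‖q0 - p‖ ≤ D := by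
    rw [← dist_eq_norm]
    exact hD q0 hq0 p hp
  rw [h2]
  calc ‖y - ((1 - s) • p + s • q0) + s • (q0 - p)‖
      ≤ ‖y - ((1 - s) • p + s • q0)‖ + ‖s • (q0 - p)‖ := norm_add_le _ _
    _ < s * ρ + s * D := by
        rw [norm_smul, Real.norm_of_nonneg hs0.le]
        exact add_lt_add_of_lt_of_le hy (mul_le_mul_of_nonneg_left h3 hs0.le)
    _ ≤ r := by nlinarith

theorem tail_of_wmass {n d : ℕ} {M : Finset (V n)} (hM : M.Nonempty) {u : V n → ℝ}
    {G : V n → V n} {H : V n → Matrix (Fin n) (Fin n) ℝ} (hR : Reg u G H) {C0 : ℝ}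
    (hB : ∀ x, |u x - lse M x| ≤ C0) {W : V n → ℝ} (hW : Low M W d) {C ε : ℝ} (hε : 0 < ε)
    (hmass : ∀ R : ℝ, 0 ≤ R →
      ∫⁻ y in {y : V n | R ≤ ‖y‖}, ENNReal.ofReal ((H y).det * W (G y)) ≤
        ENNReal.ofReal (C * Real.exp (-(ε * R)))) : Tail M G (n + d) := by
  obtain ⟨q0, ρ0, hρ0, δ, hδ, hball, hlow⟩ := hW
  have hbd : Bornology.IsBounded (convexHull ℝ (M : Set (V n))) :=
    (Set.Finite.isCompact_convexHull (𝕜 := ℝ) M.finite_toSet).isBounded
  obtain ⟨D0, hD0⟩ := Metric.isBounded_iff.1 hbd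
  set D : ℝ := max D0 0 with hDdef
  set ρ : ℝ := min ρ0 1 with hρdef
  have hρ : 0 < ρ := lt_min hρ0 one_pos
  have hD : ∀ a ∈ convexHull ℝ (M : Set (V n)), ∀ b ∈ convexHull ℝ (M : Set (V n)),
      dist a b ≤ D := fun a ha b hb => (hD0 ha hb).trans (le_max_left _ _)
  have hDn : 0 ≤ D := le_max_right _ _
  have hD2 : 0 < D + 2 := by linarith
  have hb : Metric.ball q0 ρ ⊆ convexHull ℝ (M : Set (V n)) :=
    (Metric.ball_subset_ball (min_le_left _ _)).trans (hball.trans interior_subset)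
  have hv0 : volume (Metric.ball (0 : V n) 1) ≠ 0 := (Metric.measure_ball_pos _ _ one_pos).ne'
  have hvt : volume (Metric.ball (0 : V n) 1) ≠ ⊤ := measure_ball_lt_top.ne
  set κ : ℝ := (δ / (D + 2)) ^ d * ((ρ / (D + 2)) ^ n *
    (volume (Metric.ball (0 : V n) 1)).toReal) with hκdef
  have hκ : 0 < κ := mul_pos (pow_pos (div_pos hδ hD2) _)
    (mul_pos (pow_pos (div_pos hρ hD2) _) (ENNReal.toReal_pos hv0 hvt))
  refine ⟨|C| / κ + 1, by positivity, ε, hε, ?_⟩
  intro p hp r hr hr1 R hR0 hfar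
  have hB' : ∀ x, lse M x - C0 ≤ u x := by
    intro x
    have := (abs_le.1 (hB x)).1
    linarith
  have hms : MeasurableSet {y : V n | R ≤ ‖y‖} :=
    (isClosed_le continuous_const continuous_norm).measurableSet
  have hsub : interior (convexHull ℝ (M : Set (V n))) ∩ Metric.ball p r
      ⊆ G '' {y : V n | R ≤ ‖y‖} := by
    rintro q ⟨hq1, hq2⟩
    obtain ⟨y, hy⟩ := surj_of_interior hM hR.grad hB' hq1
    refine ⟨y, ?_, hy⟩
    refine hfar y ?_
    rw [hy]
    exact hq2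
  obtain ⟨hin, hpt⟩ :=
    A3_sub (convex_convexHull ℝ _) (min_le_right _ _) hb hDn hD hρ hp hr hr1
  set s : ℝ := r / (D + 2) with hsdef
  have hs0 : 0 < s := div_pos hr hD2
  have hs1 : s ≤ 1 := by
    rw [hsdef, div_le_one hD2]
    linarith
  set B : Set (V n) := Metric.ball ((1 - s) • p + s • q0) (s * ρ) with hBdef
  have hWB : ∀ y ∈ B, ENNReal.ofReal ((δ * s) ^ d) ≤ ENNReal.ofReal (W y) := by
    intro y hy
    obtain ⟨q', hq', rfl⟩ := hpt y hy
    exact ENNReal.ofReal_le_ofReal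
      (hlow p hp q' (Metric.ball_subset_ball (min_le_left _ _) hq') s hs0.le hs1)
  have himg : ∫⁻ q in G '' {y : V n | R ≤ ‖y‖}, ENNReal.ofReal (W q) =
      ∫⁻ y in {y : V n | R ≤ ‖y‖}, ENNReal.ofReal ((H y).det * W (G y)) := by
    rw [lintegral_image_eq_lintegral_abs_det_fderiv_mul volume hms
      (fun x _ => (hR.hess x).hasFDerivWithinAt) ((inj_of_reg hR).injOn)]
    refine lintegral_congr fun y => ?_
    rw [A3_abs (hR.pos y), ENNReal.ofReal_mul (hR.pos y).det_pos.le]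
  have hvol : volume B = ENNReal.ofReal ((s * ρ) ^ n) * volume (Metric.ball (0 : V n) 1) := by
    rw [hBdef, Measure.addHaar_ball_of_pos _ _ (mul_pos hs0 hρ), finrank_euclideanSpace_fin]
  have h1 : ENNReal.ofReal (κ * r ^ (n + d)) ≤ ENNReal.ofReal (C * Real.exp (-(ε * R))) :=
    calc ENNReal.ofReal (κ * r ^ (n + d))
        = ENNReal.ofReal ((δ * s) ^ d) * volume B := by
          rw [hvol]
          have h3 : κ * r ^ (n + d) = (δ * s) ^ d *
              ((s * ρ) ^ n * (volume (Metric.ball (0 : V n) 1)).toReal) := by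
            rw [hκdef, hsdef, pow_add]
            have e1 : δ * (r / (D + 2)) = δ / (D + 2) * r := by ring
            have e2 : r / (D + 2) * ρ = ρ / (D + 2) * r := by ring
            rw [e1, e2, mul_pow, mul_pow]
            ring
          rw [h3, ENNReal.ofReal_mul (by positivity), ENNReal.ofReal_mul (by positivity),
            ENNReal.ofReal_toReal hvt]
      _ = ∫⁻ _ in B, ENNReal.ofReal ((δ * s) ^ d) := by rw [setLIntegral_const]
      _ ≤ ∫⁻ q in B, ENNReal.ofReal (W q) := setLIntegral_mono' Metric.isOpen_ball.measurableSet hWB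
      _ ≤ ∫⁻ q in G '' {y : V n | R ≤ ‖y‖}, ENNReal.ofReal (W q) :=
          lintegral_mono_set (hin.trans hsub)
      _ = ∫⁻ y in {y : V n | R ≤ ‖y‖}, ENNReal.ofReal ((H y).det * W (G y)) := himg
      _ ≤ _ := hmass R hR0
  have hpos : 0 < κ * r ^ (n + d) := by positivity
  have h2 : κ * r ^ (n + d) ≤ C * Real.exp (-(ε * R)) := by
    rcases (ENNReal.ofReal_le_ofReal_iff').1 h1 with h | h
    · exact h
    · linarith
  have he : 0 < Real.exp (-(ε * R)) := Real.exp_pos _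
  have h3 : κ * r ^ (n + d) ≤ |C| * Real.exp (-(ε * R)) :=
    h2.trans (mul_le_mul_of_nonneg_right (le_abs_self C) he.le)
  have h4 : r ^ (n + d) ≤ |C| / κ * Real.exp (-(ε * R)) := by
    rw [div_mul_eq_mul_div, le_div_iff₀ hκ]
    linarith
  calc r ^ (n + d) ≤ |C| / κ * Real.exp (-(ε * R)) := h4
    _ ≤ (|C| / κ + 1) * Real.exp (-(ε * R)) := by
      apply mul_le_mul_of_nonneg_right _ he.le
      linarith

end Pool.Agent.LibHK65
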