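import Pool.Agent.LibHK65.A3

/-!
[HK65 A4] SHORT/MEDIUM. The real theorem with a weight (helper65). Compare LibTK94.Fin `holder_of_affine`.

Plan. `D x = (H x).det * W (G x) > 0`, so `D x = exp (-(lam u x) + ⟪b, x⟫ + a)`. Total mass: `D x ≤ B' (H x).det`
(`B' = max B 0`, `G x` in the hull by `hull_of_sub`), `∫⁻ ofReal (D) ≤ ofReal B' * ∫⁻ ofReal det < ⊤`
(`total_mass`, `lintegral_const_mul'`). Then `decay`, `mass_of_decay`, `tail_of_wmass`, and `real_holder` with
`k = n + d ≠ 0` and `Pot` from `hull_of_sub`, `sub_of_reg`.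
-/

set_option autoImplicit false

open MeasureTheory
open scoped InnerProductSpace ComplexOrder

namespace Pool.Agent.LibHK65

open Pool.Agent.LibTK94

theorem holder_of_weighted {n d : ℕ} (hn : n ≠ 0) {M : Finset (V n)} (hM : M.Nonempty)
    (hS : Spans M) {u : V n → ℝ} {G : V n → V n} {H : V n → Matrix (Fin n) (Fin n) ℝ}
    (hR : Reg u G H) {C0 : ℝ} (hB : ∀ x, |u x - lse M x| ≤ C0) {W : V n → ℝ} (hW : Low M W d)
    {B : ℝ} (hWB : ∀ p ∈ convexHull ℝ (M : Set (V n)), W p ≤ B) (hW0 : ∀ x, 0 < W (G x))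
    {lam a : ℝ} {b : V n}
    (hE : ∀ x, Real.log ((H x).det * W (G x)) = -(lam * u x) + ⟪b, x⟫_ℝ + a) :
    ∃ C > (0 : ℝ), ∃ α > (0 : ℝ), ∀ x y : V n,
      |(u x - lse M x) - (u y - lse M y)| ≤ C * (bd M x y) ^ α := by
  have hhull : ∀ x, G x ∈ convexHull ℝ (M : Set (V n)) :=
    hull_of_sub hM (sub_of_reg hR) (C0 := C0) (fun x => by linarith [(abs_le.mp (hB x)).2])
  have hP : Pot M u G := ⟨hhull, sub_of_reg hR⟩
  have hD : ∀ x, (H x).det * W (G x) = Real.exp (-(lam * u x) + ⟪b, x⟫_ℝ + a) := fun x => by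
    rw [← hE x, Real.exp_log (mul_pos (hR.pos x).det_pos (hW0 x))]
  have hfin0 : ∫⁻ y, ENNReal.ofReal (H y).det < ⊤ :=
    total_mass hM hR (C0 := C0) (fun x => by linarith [(abs_le.mp (hB x)).2])
  have hfin : ∫⁻ y, ENNReal.ofReal ((H y).det * W (G y)) < ⊤ := by
    calc ∫⁻ y, ENNReal.ofReal ((H y).det * W (G y))
        ≤ ∫⁻ y, ENNReal.ofReal (max B 0) * ENNReal.ofReal (H y).det := by
          refine lintegral_mono fun y => ?_
          rw [← ENNReal.ofReal_mul (le_max_right B 0)]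
          refine ENNReal.ofReal_le_ofReal ?_
          rw [mul_comm]
          exact mul_le_mul_of_nonneg_right ((hWB _ (hhull y)).trans (le_max_left B 0))
            (hR.pos y).det_pos.le
      _ = ENNReal.ofReal (max B 0) * ∫⁻ y, ENNReal.ofReal (H y).det :=
          lintegral_const_mul' _ _ ENNReal.ofReal_ne_top
      _ < ⊤ := ENNReal.mul_lt_top ENNReal.ofReal_lt_top hfin0
  obtain ⟨A, ε, hε, hA⟩ := decay hM hB hD hfin
  obtain ⟨C, -, ε', hε', hC⟩ := mass_of_decay (fun y => (H y).det * W (G y)) hε hA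
  have hk : n + d ≠ 0 := by omega
  exact real_holder hk hM hS hP (tail_of_wmass hM hR hB hW hε' hC) hB

end Pool.Agent.LibHK65
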