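import Pool.Agent.LibHK65.Defs

/-!
[HK65 C1] SHORT. Second derivatives: linear substitutions, sums, symmetry (helper65). Compare
LibTK94.CHess `D2_comp_reV`.

Plan. `fderiv ℝ (f ∘ L) = fun x => (fderiv ℝ f (L x)).comp L`, differentiate once more
(`ContDiff.fderiv_right`, `HasFDerivAt.clm_comp`). `D2_symm`: `ContDiffAt.isSymmSndFDerivAt` (`minSmoothness` by
`simp`). `lev_herm`: entries; conjugation changes the sign of the imaginary part, `D2_symm`.
-/

set_option autoImplicit false

open MeasureTheory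
open scoped InnerProductSpace ComplexOrder

namespace Pool.Agent.LibHK65

open Pool.Agent.LibTK94

theorem D2_comp_clm {E F : Type} [NormedAddCommGroup E] [NormedSpace ℝ E]
    [NormedAddCommGroup F] [NormedSpace ℝ F] (L : E →L[ℝ] F) {f : F → ℝ}
    (hf : ContDiff ℝ 2 f) (x a b : E) :
    D2 (fun x => f (L x)) x a b = D2 f (L x) (L a) (L b) := by
  have h1 : Differentiable ℝ f := hf.differentiable (by norm_num)
  have h2 : Differentiable ℝ (fderiv ℝ f) :=
    (hf.fderiv_right (m := 1) (by norm_num)).differentiable (by norm_num)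
  have e1 : fderiv ℝ (fun x => f (L x)) = fun x => (fderiv ℝ f (L x)).comp L := by
    funext w
    have h3 : HasFDerivAt (fun w => f (L w)) ((fderiv ℝ f (L w)).comp L) w :=
      (h1 (L w)).hasFDerivAt.comp w L.hasFDerivAt
    exact h3.fderiv
  have h4 : HasFDerivAt (fun w => fderiv ℝ f (L w)) ((fderiv ℝ (fderiv ℝ f) (L x)).comp L) x :=
    (h2 (L x)).hasFDerivAt.comp x L.hasFDerivAt
  have h5 := h4.clm_comp (hasFDerivAt_const L x)
  unfold D2
  rw [e1, h5.fderiv]
  simp

theorem D2_symm {E : Type} [NormedAddCommGroup E] [NormedSpace ℝ E] {f : E → ℝ}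
    (hf : ContDiff ℝ 2 f) (x a b : E) : D2 f x a b = D2 f x b a := by
  have h : IsSymmSndFDerivAt ℝ f x := hf.contDiffAt.isSymmSndFDerivAt (by simp)
  exact h a b

theorem D2_add {E : Type} [NormedAddCommGroup E] [NormedSpace ℝ E] {f g : E → ℝ}
    (hf : ContDiff ℝ 2 f) (hg : ContDiff ℝ 2 g) (x a b : E) :
    D2 (fun x => f x + g x) x a b = D2 f x a b + D2 g x a b := by
  have hf1 : Differentiable ℝ f := hf.differentiable (by norm_num)
  have hg1 : Differentiable ℝ g := hg.differentiable (by norm_num)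
  have hf2 : Differentiable ℝ (fderiv ℝ f) :=
    (hf.fderiv_right (m := 1) (by norm_num)).differentiable (by norm_num)
  have hg2 : Differentiable ℝ (fderiv ℝ g) :=
    (hg.fderiv_right (m := 1) (by norm_num)).differentiable (by norm_num)
  have e1 : fderiv ℝ (fun x => f x + g x) = fun x => fderiv ℝ f x + fderiv ℝ g x := by
    funext w
    exact ((hf1 w).hasFDerivAt.add (hg1 w).hasFDerivAt).fderiv
  have e2 : fderiv ℝ (fun x => fderiv ℝ f x + fderiv ℝ g x) x =
      fderiv ℝ (fderiv ℝ f) x + fderiv ℝ (fderiv ℝ g) x :=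
    ((hf2 x).hasFDerivAt.add (hg2 x).hasFDerivAt).fderiv
  unfold D2
  rw [e1, e2]
  rfl

theorem D2_const_mul {E : Type} [NormedAddCommGroup E] [NormedSpace ℝ E] {f : E → ℝ}
    (hf : ContDiff ℝ 2 f) (c : ℝ) (x a b : E) :
    D2 (fun x => c * f x) x a b = c * D2 f x a b := by
  have hf1 : Differentiable ℝ f := hf.differentiable (by norm_num)
  have hf2 : Differentiable ℝ (fderiv ℝ f) :=
    (hf.fderiv_right (m := 1) (by norm_num)).differentiable (by norm_num)
  have e1 : fderiv ℝ (fun x => c * f x) = fun x => c • fderiv ℝ f x := by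
    funext w
    exact ((hf1 w).hasFDerivAt.const_mul c).fderiv
  have e2 : fderiv ℝ (fun x => c • fderiv ℝ f x) x = c • fderiv ℝ (fderiv ℝ f) x :=
    ((hf2 x).hasFDerivAt.const_smul c).fderiv
  unfold D2
  rw [e1, e2]
  rfl

theorem lev_herm {ι : Type} [Fintype ι] [DecidableEq ι] {f : (ι → ℂ) → ℝ}
    (hf : ContDiff ℝ 2 f) (z : ι → ℂ) : (lev f z).IsHermitian := by
  ext j k
  rw [Matrix.conjTranspose_apply]
  unfold lev
  simp only [Matrix.of_apply]
  rw [D2_symm hf z (Pi.single k 1) (Pi.single j 1),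
    D2_symm hf z (Pi.single k Complex.I) (Pi.single j Complex.I),
    D2_symm hf z (Pi.single k 1) (Pi.single j Complex.I),
    D2_symm hf z (Pi.single k Complex.I) (Pi.single j 1)]
  apply Complex.ext
  · simp
  · simp

end Pool.Agent.LibHK65
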