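import Pool.Agent.LibHK65.C1

/-!
[HK65 C2] Second derivative of `U (Re w + ν(u)/2) + c ν0(u)` at the points `(w, 0)` (helper65).
-/

set_option autoImplicit false

open MeasureTheory
open scoped InnerProductSpace ComplexOrder

namespace Pool.Agent.LibHK65

open Pool.Agent.LibTK94

private noncomputable def C2_W (n d : ℕ) : (Fin n ⊕ Fin d → ℂ) →L[ℝ] V n :=
  LinearMap.toContinuousLinearMap
    { toFun := fun z => reV (ww z)
      map_add' := fun w w' => by
        ext j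
        simp [reV, ww]
      map_smul' := fun c w => by
        ext j
        simp [reV, ww] }

private noncomputable def C2_U (n d : ℕ) : (Fin n ⊕ Fin d → ℂ) →L[ℝ] (Fin d → ℂ) :=
  LinearMap.toContinuousLinearMap
    { toFun := fun z => uu z
      map_add' := fun w w' => by
        ext j
        simp [uu]
      map_smul' := fun c w => by
        ext j
        simp [uu] }

private noncomputable def C2_T (n : ℕ) : (Fin n → ℝ) →L[ℝ] V n :=
  LinearMap.toContinuousLinearMap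
    { toFun := fun y => WithLp.toLp 2 fun k => y k / 2
      map_add' := fun w w' => by
        ext j
        simp [add_div]
      map_smul' := fun c w => by
        ext j
        simp [mul_div_assoc] }

private theorem C2_xv {n d : ℕ} (ν : (Fin d → ℂ) → Fin n → ℝ) :
    xv ν = fun z => C2_W n d z + C2_T n (ν (C2_U n d z)) := by
  funext z
  ext k
  rfl

theorem contDiff_xv {n d : ℕ} {ν : (Fin d → ℂ) → Fin n → ℝ} {m : ℕ} (hν : ContDiff ℝ m ν) :
    ContDiff ℝ m (xv ν) := by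
  rw [C2_xv]
  exact (C2_W n d).contDiff.add ((C2_T n).contDiff.comp (hν.comp (C2_U n d).contDiff))

private theorem C2_comp {E F : Type} [NormedAddCommGroup E] [NormedSpace ℝ E]
    [NormedAddCommGroup F] [NormedSpace ℝ F] {U : F → ℝ} (hU : ContDiff ℝ 2 U) {X : E → F}
    (hX : ContDiff ℝ 2 X) (z a b : E) :
    D2 (fun z => U (X z)) z a b = D2 U (X z) (fderiv ℝ X z a) (fderiv ℝ X z b) +
      fderiv ℝ U (X z) (fderiv ℝ (fderiv ℝ X) z a b) := by
  have h1 : Differentiable ℝ U := hU.differentiable (by norm_num)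
  have h2 : Differentiable ℝ (fderiv ℝ U) :=
    (hU.fderiv_right (m := 1) (by norm_num)).differentiable (by norm_num)
  have h3 : Differentiable ℝ X := hX.differentiable (by norm_num)
  have h4 : Differentiable ℝ (fderiv ℝ X) :=
    (hX.fderiv_right (m := 1) (by norm_num)).differentiable (by norm_num)
  have e1 : fderiv ℝ (fun z => U (X z)) = fun z => (fderiv ℝ U (X z)).comp (fderiv ℝ X z) := by
    funext z
    exact ((h1 (X z)).hasFDerivAt.comp z (h3 z).hasFDerivAt).fderiv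
  have h5 : HasFDerivAt (fun z => fderiv ℝ U (X z))
      ((fderiv ℝ (fderiv ℝ U) (X z)).comp (fderiv ℝ X z)) z :=
    (h2 (X z)).hasFDerivAt.comp z (h3 z).hasFDerivAt
  have h6 := h5.clm_comp (h4 z).hasFDerivAt
  unfold D2
  rw [e1, h6.fderiv]
  simp
  ring

private theorem C2_d1 {n d : ℕ} {ν : (Fin d → ℂ) → Fin n → ℝ} (hν : ContDiff ℝ 2 ν)
    (z : Fin n ⊕ Fin d → ℂ) : fderiv ℝ (xv ν) z =
      C2_W n d + (C2_T n).comp ((fderiv ℝ ν (C2_U n d z)).comp (C2_U n d)) := by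
  have h1 : Differentiable ℝ ν := hν.differentiable (by norm_num)
  rw [C2_xv]
  have h2 : HasFDerivAt (fun z => ν (C2_U n d z))
      ((fderiv ℝ ν (C2_U n d z)).comp (C2_U n d)) z :=
    (h1 (C2_U n d z)).hasFDerivAt.comp z (C2_U n d).hasFDerivAt
  have h3 : HasFDerivAt (fun z => C2_T n (ν (C2_U n d z)))
      ((C2_T n).comp ((fderiv ℝ ν (C2_U n d z)).comp (C2_U n d))) z :=
    (C2_T n).hasFDerivAt.comp z h2
  exact ((C2_W n d).hasFDerivAt.add h3).fderiv

private theorem C2_d2 {n d : ℕ} {ν : (Fin d → ℂ) → Fin n → ℝ} (hν : ContDiff ℝ 2 ν)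
    (z a b : Fin n ⊕ Fin d → ℂ) : fderiv ℝ (fderiv ℝ (xv ν)) z a b =
      C2_T n (fderiv ℝ (fderiv ℝ ν) (uu z) (uu a) (uu b)) := by
  have h2 : Differentiable ℝ (fderiv ℝ ν) :=
    (hν.fderiv_right (m := 1) (by norm_num)).differentiable (by norm_num)
  have e1 : fderiv ℝ (xv ν) = fun z =>
      C2_W n d + (C2_T n).comp ((fderiv ℝ ν (C2_U n d z)).comp (C2_U n d)) :=
    funext fun z => C2_d1 hν z
  have h3 : HasFDerivAt (fun z => fderiv ℝ ν (C2_U n d z))
      ((fderiv ℝ (fderiv ℝ ν) (C2_U n d z)).comp (C2_U n d)) z :=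
    (h2 (C2_U n d z)).hasFDerivAt.comp z (C2_U n d).hasFDerivAt
  have h4 := h3.clm_comp (hasFDerivAt_const (C2_U n d) z)
  have h5 := (hasFDerivAt_const (C2_T n) z).clm_comp h4
  have h6 := h5.const_add (C2_W n d)
  rw [e1, h6.fderiv]
  simp
  rfl

private theorem C2_coord {n d : ℕ} {ν : (Fin d → ℂ) → Fin n → ℝ} (hν : ContDiff ℝ 2 ν)
    (u a b : Fin d → ℂ) (k : Fin n) :
    D2 (fun u => ν u k) u a b = fderiv ℝ (fderiv ℝ ν) u a b k := by
  let P : (Fin n → ℝ) →L[ℝ] ℝ := ContinuousLinearMap.proj k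
  have h1 := C2_comp (U := fun y : Fin n → ℝ => P y) P.contDiff hν u a b
  have h2 : fderiv ℝ (fun y : Fin n → ℝ => P y) = fun _ => P := by
    funext y
    exact P.hasFDerivAt.fderiv
  have h3 : ∀ x y z, D2 (fun y : Fin n → ℝ => P y) x y z = 0 := by
    intro x y z
    unfold D2
    rw [h2]
    simp
  rw [h3, zero_add, h2] at h1
  exact h1

theorem D2_slice {n d : ℕ} {U : V n → ℝ} (hU : ContDiff ℝ 2 U) (c : ℝ)
    {ν : (Fin d → ℂ) → Fin n → ℝ} {ν0 : (Fin d → ℂ) → ℝ} (hν : ContDiff ℝ 2 ν)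
    (hν0 : ContDiff ℝ 2 ν0) (hd : fderiv ℝ ν 0 = 0) (w : Fin n → ℂ)
    (a b : Fin n ⊕ Fin d → ℂ) :
    D2 (fun z => U (xv ν z) + c * ν0 (uu z)) (sl w) a b =
      D2 U (xv ν (sl w)) (reV (ww a)) (reV (ww b)) +
        ∑ k, gradient U (xv ν (sl w)) k / 2 * D2 (fun u => ν u k) 0 (uu a) (uu b) +
        c * D2 ν0 0 (uu a) (uu b) := by
  have hX : ContDiff ℝ 2 (xv ν) := contDiff_xv (m := 2) hν
  have hF : ContDiff ℝ 2 (fun z => U (xv ν z)) := hU.comp hX
  have hG0 : ContDiff ℝ 2 (fun z : Fin n ⊕ Fin d → ℂ => ν0 (uu z)) :=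
    hν0.comp (C2_U n d).contDiff
  have hG : ContDiff ℝ 2 (fun z : Fin n ⊕ Fin d → ℂ => c * ν0 (uu z)) :=
    contDiff_const.mul hG0
  have huu : uu (sl w : Fin n ⊕ Fin d → ℂ) = 0 := rfl
  rw [D2_add hF hG, D2_const_mul hG0]
  have h1 : D2 (fun z : Fin n ⊕ Fin d → ℂ => ν0 (uu z)) (sl w) a b =
      D2 ν0 0 (uu a) (uu b) := D2_comp_clm (C2_U n d) hν0 (sl w) a b
  rw [h1, C2_comp hU hX]
  congr 2
  · have h2 : ∀ a : Fin n ⊕ Fin d → ℂ, fderiv ℝ (xv ν) (sl w) a = reV (ww a) := by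
      intro a
      rw [C2_d1 hν]
      have h3 : fderiv ℝ ν (C2_U n d (sl w)) = 0 := hd
      rw [h3]
      simp
      rfl
    rw [h2, h2]
  · rw [C2_d2 hν, huu]
    have h4 : ∀ v : V n, fderiv ℝ U (xv ν (sl w)) v =
        ∑ k, gradient U (xv ν (sl w)) k * v k := by
      intro v
      have h5 : fderiv ℝ U (xv ν (sl w)) v = inner ℝ (gradient U (xv ν (sl w))) v := by
        unfold gradient
        rw [InnerProductSpace.toDual_symm_apply]
      rw [h5, PiLp.inner_apply]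
      refine Finset.sum_congr rfl fun k _ => ?_
      simp [mul_comm]
    rw [h4]
    refine Finset.sum_congr rfl fun k _ => ?_
    rw [C2_coord hν]
    change gradient U (xv ν (sl w)) k *
      (fderiv ℝ (fderiv ℝ ν) 0 (uu a) (uu b) k / 2) = _
    ring

end Pool.Agent.LibHK65
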