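import Pool.Agent.LibHK65.C2

/-!
[HK65 C3] SHORT/MEDIUM. Block form of the complex Hessian at `(w, 0)`, its determinant and
positivity (helper65). Cites C2 `D2_slice`, LibTK94 `CHess`, `CMat`.

Plan. `lev_slice`: entries; for `j = inl` the vectors `Pi.single (inl j) 1`, `Pi.single (inl j) I` have `uu = 0`,
`reV (ww ..) = EuclideanSpace.single j 1`, resp. `0`; for `inr` `ww = 0` and `uu (Pi.single (inr l) t) = Pi.single l t`.
Unfold `lev`, `Hm`, `Au`, push casts. `det`: `Matrix.det_fromBlocks_zero₂₁`, `det_map_re`, and `(Au ..).det` is real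
(hermitian, `lev_herm`: `(det A)ᴴ = det A`), the determinant of the first block is the real number
`(1/4)^n * (Hm U x).det` (complex determinant of a real matrix: `RingHom.map_det` as in `det_map_re`).
`pos`: a positive definite block diagonal matrix has positive definite blocks: test vectors `Sum.elim v 0`,
`Sum.elim 0 v` (or `Matrix.PosDef.submatrix`); `posDef_of_map` for the first block.
-/

set_option autoImplicit false

open MeasureTheory
open scoped InnerProductSpace ComplexOrder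

namespace Pool.Agent.LibHK65

open Pool.Agent.LibTK94

private theorem C3_one {n : ℕ} (j : Fin n) :
    reV (Pi.single j (1 : ℂ)) = (EuclideanSpace.single j (1 : ℝ) : V n) := by
  ext i
  by_cases h : i = j
  · subst h
    simp [reV]
  · simp [reV, h]

private theorem C3_I {n : ℕ} (j : Fin n) : reV (Pi.single j Complex.I) = (0 : V n) := by
  ext i
  by_cases h : i = j
  · subst h
    simp [reV]
  · simp [reV, h]

private theorem C3_reV0 {n : ℕ} : reV (0 : Fin n → ℂ) = (0 : V n) := by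
  ext i
  simp [reV]

private theorem C3_ww_inl {n d : ℕ} (j : Fin n) (t : ℂ) :
    ww (Pi.single (Sum.inl j : Fin n ⊕ Fin d) t) = Pi.single j t := by
  funext i
  by_cases h : i = j
  · subst h
    simp [ww]
  · simp [ww, h]

private theorem C3_ww_inr {n d : ℕ} (j : Fin d) (t : ℂ) :
    ww (Pi.single (Sum.inr j : Fin n ⊕ Fin d) t) = 0 := by
  funext i
  simp [ww]

private theorem C3_uu_inl {n d : ℕ} (j : Fin n) (t : ℂ) :
    uu (Pi.single (Sum.inl j : Fin n ⊕ Fin d) t) = 0 := by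
  funext i
  simp [uu]

private theorem C3_uu_inr {n d : ℕ} (j : Fin d) (t : ℂ) :
    uu (Pi.single (Sum.inr j : Fin n ⊕ Fin d) t) = Pi.single j t := by
  funext i
  by_cases h : i = j
  · subst h
    simp [uu]
  · simp [uu, h]

private theorem C3_zl {E : Type} [NormedAddCommGroup E] [NormedSpace ℝ E] (F : E → ℝ) (x b : E) :
    D2 F x 0 b = 0 := by
  unfold D2
  simp

private theorem C3_zr {E : Type} [NormedAddCommGroup E] [NormedSpace ℝ E] (F : E → ℝ) (x a : E) :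
    D2 F x a 0 = 0 := by
  unfold D2
  simp

private theorem C3_sum {n : ℕ} (p x y z t : Fin n → ℝ) (c x0 y0 z0 t0 : ℝ) :
    (1 / 4 : ℂ) * (((∑ k, p k / 2 * x k + c * x0 + (∑ k, p k / 2 * y k + c * y0) : ℝ) : ℂ) +
      Complex.I * ((∑ k, p k / 2 * z k + c * z0 - (∑ k, p k / 2 * t k + c * t0) : ℝ) : ℂ)) =
    ∑ k, ((p k / 2 : ℝ) : ℂ) * ((1 / 4 : ℂ) * (((x k + y k : ℝ) : ℂ) +
      Complex.I * ((z k - t k : ℝ) : ℂ))) +
    (c : ℂ) * ((1 / 4 : ℂ) * (((x0 + y0 : ℝ) : ℂ) + Complex.I * ((z0 - t0 : ℝ) : ℂ))) := by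
  have h : ∑ k, ((p k / 2 : ℝ) : ℂ) * ((1 / 4 : ℂ) * (((x k + y k : ℝ) : ℂ) +
      Complex.I * ((z k - t k : ℝ) : ℂ))) =
      (1 / 4 : ℂ) * ((∑ k, ((p k / 2 * x k : ℝ) : ℂ) + ∑ k, ((p k / 2 * y k : ℝ) : ℂ)) +
        Complex.I * (∑ k, ((p k / 2 * z k : ℝ) : ℂ) - ∑ k, ((p k / 2 * t k : ℝ) : ℂ))) := by
    rw [← Finset.sum_add_distrib, ← Finset.sum_sub_distrib, Finset.mul_sum,
      ← Finset.sum_add_distrib, Finset.mul_sum]
    refine Finset.sum_congr rfl fun k _ => ?_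
    push_cast
    ring
  rw [h]
  push_cast
  ring

private theorem C3_smul {ι : Type} [Fintype ι] {A : Matrix ι ι ℂ} (hA : A.IsHermitian) (r : ℝ) :
    ((r : ℂ) • A).IsHermitian := by
  unfold Matrix.IsHermitian
  rw [Matrix.conjTranspose_smul, hA, RCLike.star_def, Complex.conj_ofReal]

theorem lev_slice {n d : ℕ} {U : V n → ℝ} (hU : ContDiff ℝ 2 U) (c : ℝ)
    {ν : (Fin d → ℂ) → Fin n → ℝ} {ν0 : (Fin d → ℂ) → ℝ} (hν : ContDiff ℝ 2 ν)
    (hν0 : ContDiff ℝ 2 ν0) (hd : fderiv ℝ ν 0 = 0) (w : Fin n → ℂ) :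
    lev (fun z => U (xv ν z) + c * ν0 (uu z)) (sl w) =
      Matrix.fromBlocks
        ((Hm U (xv ν (sl w))).map (fun r => (((1 / 4 : ℝ) * r : ℝ) : ℂ))) 0 0
        (Au c ν ν0 (gradient U (xv ν (sl w)))) := by
  have hz : ∀ a b : Fin n ⊕ Fin d → ℂ, D2 (fun z => U (xv ν z) + c * ν0 (uu z)) (sl w) a b =
      D2 U (xv ν (sl w)) (reV (ww a)) (reV (ww b)) +
        ∑ k, gradient U (xv ν (sl w)) k / 2 * D2 (fun u => ν u k) 0 (uu a) (uu b) +
        c * D2 ν0 0 (uu a) (uu b) := fun a b => D2_slice hU c hν hν0 hd w a b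
  ext j k
  rcases j with j | j <;> rcases k with k | k
  · rw [Matrix.fromBlocks_apply₁₁]
    unfold lev Hm
    simp only [Matrix.of_apply, Matrix.map_apply, hz, C3_ww_inl, C3_uu_inl, C3_one, C3_I, C3_zl,
      C3_zr, mul_zero, Finset.sum_const_zero, add_zero, sub_zero]
    push_cast
    ring
  · rw [Matrix.fromBlocks_apply₁₂]
    unfold lev
    simp only [Matrix.of_apply, hz, C3_ww_inl, C3_ww_inr, C3_uu_inl, C3_uu_inr, C3_reV0, C3_zl,
      C3_zr, mul_zero, Finset.sum_const_zero, add_zero, sub_zero, Complex.ofReal_zero,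
      Matrix.zero_apply]
  · rw [Matrix.fromBlocks_apply₂₁]
    unfold lev
    simp only [Matrix.of_apply, hz, C3_ww_inl, C3_ww_inr, C3_uu_inl, C3_uu_inr, C3_reV0, C3_zl,
      C3_zr, mul_zero, Finset.sum_const_zero, add_zero, sub_zero, Complex.ofReal_zero,
      Matrix.zero_apply]
  · rw [Matrix.fromBlocks_apply₂₂]
    unfold Au lev
    simp only [Matrix.of_apply, hz, C3_ww_inr, C3_uu_inr, C3_reV0, C3_zl, zero_add,
      Matrix.add_apply, Matrix.sum_apply, Matrix.smul_apply, smul_eq_mul]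
    exact C3_sum _ _ _ _ _ _ _ _ _ _

theorem Au_herm {n d : ℕ} (c : ℝ) {ν : (Fin d → ℂ) → Fin n → ℝ} {ν0 : (Fin d → ℂ) → ℝ}
    (hν : ContDiff ℝ 2 ν) (hν0 : ContDiff ℝ 2 ν0) (p : V n) : (Au c ν ν0 p).IsHermitian := by
  unfold Au
  refine Matrix.IsHermitian.add ?_ (C3_smul (lev_herm hν0 0) c)
  unfold Matrix.IsHermitian
  rw [Matrix.conjTranspose_sum]
  exact Finset.sum_congr rfl fun k _ =>
    C3_smul (lev_herm (contDiff_pi.mp hν k) 0) (p k / 2)

theorem det_block_re {n d : ℕ} (A : Matrix (Fin n) (Fin n) ℝ) {B : Matrix (Fin d) (Fin d) ℂ}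
    (hB : B.IsHermitian) :
    (Matrix.fromBlocks (A.map (fun r => (((1 / 4 : ℝ) * r : ℝ) : ℂ))) 0 0 B).det.re =
      (1 / 4) ^ n * A.det * B.det.re := by
  have hmap : A.map (fun r => (((1 / 4 : ℝ) * r : ℝ) : ℂ)) =
      ((1 / 4 : ℝ) • A).map (algebraMap ℝ ℂ) := by
    ext i j
    simp
  have h1 : (((1 / 4 : ℝ) • A).map (algebraMap ℝ ℂ)).det =
      algebraMap ℝ ℂ ((1 / 4 : ℝ) • A).det :=
    (RingHom.map_det (algebraMap ℝ ℂ) ((1 / 4 : ℝ) • A)).symm
  rw [Matrix.det_fromBlocks_zero₂₁, hmap, h1, Complex.coe_algebraMap, Complex.re_ofReal_mul,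
    Matrix.det_smul, Fintype.card_fin]

theorem posDef_blocks {n d : ℕ} {A : Matrix (Fin n) (Fin n) ℝ} {B : Matrix (Fin d) (Fin d) ℂ}
    (h : (Matrix.fromBlocks (A.map (fun r => (((1 / 4 : ℝ) * r : ℝ) : ℂ))) 0 0 B).PosDef) :
    A.PosDef ∧ B.PosDef := by
  constructor
  · apply posDef_of_map
    have h1 := h.submatrix (e := Sum.inl) Sum.inl_injective
    rwa [show (Matrix.fromBlocks (A.map (fun r => (((1 / 4 : ℝ) * r : ℝ) : ℂ))) 0 0 B).submatrix
      Sum.inl Sum.inl = A.map (fun r => (((1 / 4 : ℝ) * r : ℝ) : ℂ)) from by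
        ext i j
        rfl] at h1
  · have h1 := h.submatrix (e := Sum.inr) Sum.inr_injective
    rwa [show (Matrix.fromBlocks (A.map (fun r => (((1 / 4 : ℝ) * r : ℝ) : ℂ))) 0 0 B).submatrix
      Sum.inr Sum.inr = B from by
        ext i j
        rfl] at h1

end Pool.Agent.LibHK65
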