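import Pool.Agent.LibHK65.C1

/-!
[HK65 C4] SHORT/MEDIUM. `log det` of the complex Hessian is `C²` (helper65). Compare LibTK94.CLog.

Plan. Every entry of `lev F z` is a `C²` function of `z` (`ContDiff.fderiv_right` twice, `clm_apply` with constants,
`Complex.ofRealCLM`), the determinant is a polynomial in the entries (`Matrix.det_apply'`), its real part is `C²`
(`Complex.reCLM`), positive (`Matrix.PosDef.det_pos`: a positive complex number has positive real part), `ContDiff.log`.
-/

set_option autoImplicit false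

open MeasureTheory
open scoped InnerProductSpace ComplexOrder

namespace Pool.Agent.LibHK65

open Pool.Agent.LibTK94

theorem contDiff_log_lev {ι : Type} [Fintype ι] [DecidableEq ι] {F : (ι → ℂ) → ℝ}
    (hF : ContDiff ℝ 4 F) (hpos : ∀ z, (lev F z).PosDef) :
    ContDiff ℝ 2 (fun z => Real.log (lev F z).det.re) := by
  have h1 : ContDiff ℝ 3 (fderiv ℝ F) := hF.fderiv_right (by norm_num)
  have h2 : ContDiff ℝ 2 (fderiv ℝ (fderiv ℝ F)) := h1.fderiv_right (by norm_num)
  have hD : ∀ a b : ι → ℂ, ContDiff ℝ 2 (fun z => D2 F z a b) := fun a b =>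
    (h2.clm_apply contDiff_const).clm_apply contDiff_const
  have hR : ∀ {g : (ι → ℂ) → ℝ}, ContDiff ℝ 2 g → ContDiff ℝ 2 (fun z => ((g z : ℝ) : ℂ)) :=
    fun hg => Complex.ofRealCLM.contDiff.comp hg
  have h3 : ∀ j k, ContDiff ℝ 2 (fun z => lev F z j k) := fun j k =>
    contDiff_const.mul ((hR ((hD _ _).add (hD _ _))).add
      (contDiff_const.mul (hR ((hD _ _).sub (hD _ _)))))
  have h4 : ContDiff ℝ 2 (fun z => (lev F z).det) := by
    have h5 : (fun z => (lev F z).det) = fun z => ∑ σ : Equiv.Perm ι,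
        ((Equiv.Perm.sign σ : ℤ) : ℂ) * ∏ i, lev F z (σ i) i := by
      funext z
      rw [Matrix.det_apply']
    rw [h5]
    exact ContDiff.sum fun σ _ => contDiff_const.mul (contDiff_prod fun i _ => h3 _ _)
  have h6 : ContDiff ℝ 2 (fun z => (lev F z).det.re) := Complex.reCLM.contDiff.comp h4
  refine h6.log fun z => ?_
  have h7 : 0 < (lev F z).det := (hpos z).det_pos
  exact (Complex.pos_iff.1 h7).1.ne'

end Pool.Agent.LibHK65
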