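import Pool.Agent.LibHK65.C1

/-!
[HK65 C5] MEDIUM. The Einstein equation on the slice `u = 0` gives an affine relation (helper65).
Cites C1 `D2_comp_clm`, LibTK94 `levi_comp_reV`, `affine_of_D2`. Compare LibTK94.CEin `einstein_affine`.

Plan. `L : (Fin n → ℂ) →L[ℝ] (Fin n ⊕ Fin d → ℂ)`, `L w = sl w` (linear); `L (Pi.single j t) = Pi.single (inl j) t`.
By `D2_comp_clm` the `(inl j, inl k)` entry of `lev h (sl w)` is the `(j, k)` entry of `lev (fun w => h (sl w)) w`
(unfold `lev`), the same for `Φ`. With `h (sl w) = Ld (reV w)`, `Φ (sl w) = U (reV w)` and `levi_comp_reV` (`lev` on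
`Fin n → ℂ` is `levi` by `rfl`): `Hm Ld x j k = - lam * Hm U x j k` at `x = reV w`, all `x` occur (`reV_ofR`). Then as in
`einstein_affine`: `Ld + lam * U` has zero `D2`, `affine_of_D2`.
-/

set_option autoImplicit false

open MeasureTheory
open scoped InnerProductSpace ComplexOrder

namespace Pool.Agent.LibHK65

open Pool.Agent.LibTK94

/-- the linear map `w ↦ (w, 0)` -/
private noncomputable def C5_L (n d : ℕ) : (Fin n → ℂ) →L[ℝ] (Fin n ⊕ Fin d → ℂ) :=
  ContinuousLinearMap.pi fun s => Sum.elim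
    (fun j => (ContinuousLinearMap.proj j : (Fin n → ℂ) →L[ℝ] ℂ)) (fun _ => 0) s

private theorem C5_L_apply {n d : ℕ} (w : Fin n → ℂ) : C5_L n d w = sl w := by
  ext s
  rcases s with j | l
  · rfl
  · rfl

private theorem C5_L_single {n d : ℕ} (j : Fin n) (t : ℂ) :
    C5_L n d (Pi.single j t) = Pi.single (Sum.inl j) t := by
  rw [C5_L_apply]
  ext s
  rcases s with i | l
  · change (Pi.single j t : Fin n → ℂ) i = (Pi.single (Sum.inl j) t : Fin n ⊕ Fin d → ℂ) (Sum.inl i)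
    by_cases h : i = j
    · rw [h, Pi.single_eq_same, Pi.single_eq_same]
    · rw [Pi.single_eq_of_ne h, Pi.single_eq_of_ne fun h' => h (Sum.inl.inj h')]
  · change (0 : ℂ) = (Pi.single (Sum.inl j) t : Fin n ⊕ Fin d → ℂ) (Sum.inr l)
    rw [Pi.single_eq_of_ne fun h => by cases h]

private theorem C5_lev {n d : ℕ} {h : (Fin n ⊕ Fin d → ℂ) → ℝ} (hh : ContDiff ℝ 2 h)
    (w : Fin n → ℂ) (j k : Fin n) :
    lev h (sl w) (Sum.inl j) (Sum.inl k) = levi (fun w => h (sl w)) w j k := by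
  have h1 : (fun w : Fin n → ℂ => h (sl w)) = fun w => h (C5_L n d w) := by
    funext w
    rw [C5_L_apply]
  have h2 : ∀ a b, D2 (fun w : Fin n → ℂ => h (sl w)) w a b = D2 h (sl w) (C5_L n d a) (C5_L n d b) := by
    intro a b
    rw [h1, D2_comp_clm (C5_L n d) hh, C5_L_apply w]
  unfold lev levi
  rw [Matrix.of_apply, Matrix.of_apply, h2, h2, h2, h2, C5_L_single, C5_L_single, C5_L_single, C5_L_single]

theorem affine_of_slice {n d : ℕ} {h Φ : (Fin n ⊕ Fin d → ℂ) → ℝ} (hh : ContDiff ℝ 2 h)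
    (hΦ : ContDiff ℝ 2 Φ) {Ld U : V n → ℝ} (hLd : ContDiff ℝ 2 Ld) (hU : ContDiff ℝ 2 U)
    (h1 : ∀ w : Fin n → ℂ, h (sl w) = Ld (reV w)) (h2 : ∀ w : Fin n → ℂ, Φ (sl w) = U (reV w))
    {lam : ℝ} (hE : ∀ w : Fin n → ℂ, ∀ j k : Fin n,
      lev h (sl w) (Sum.inl j) (Sum.inl k) = -(lam : ℂ) * lev Φ (sl w) (Sum.inl j) (Sum.inl k)) :
    ∃ (b : V n) (a : ℝ), ∀ x, Ld x = -(lam * U x) + ⟪b, x⟫_ℝ + a := by
  have h3 : ∀ x j k, Hm Ld x j k = -lam * Hm U x j k := by
    intro x j k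
    have e1 := hE (ofR x) j k
    rw [C5_lev hh, C5_lev hΦ, funext h1, funext h2, levi_comp_reV hLd, levi_comp_reV hU] at e1
    have e2 : reV (ofR x) = x := by
      ext i
      simp [reV, ofR]
    rw [e2] at e1
    simp only [Matrix.map_apply] at e1
    rw [← Complex.ofReal_neg, ← Complex.ofReal_mul, Complex.ofReal_inj] at e1
    linarith
  have hD : ∀ x a b, D2 (fun x => Ld x + lam * U x) x a b = D2 Ld x a b + lam * D2 U x a b := by
    intro x a b
    rw [D2_add hLd (contDiff_const.mul hU), D2_const_mul hU]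
  have hWC : ContDiff ℝ 2 (fun x => Ld x + lam * U x) := hLd.add (contDiff_const.mul hU)
  obtain ⟨b, a, hba⟩ := affine_of_D2 hWC (by
    intro x j k
    rw [hD]
    have := h3 x j k
    unfold Hm at this
    simp only [Matrix.of_apply] at this
    rw [this]
    ring)
  refine ⟨b, a, fun x => ?_⟩
  have e1 := hba x
  linarith

end Pool.Agent.LibHK65
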