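import Pool.Agent.LibHK65.Defs

/-!
[HK65 C6] MEDIUM. The norm of `Z` and the Fubini-Study distance (helper65). Compare LibTK94.CFS
(`norm_Zv`, `spans_realPts`, `bd_le_fsDist`: same proofs, with the sum over `J` grouped by the weight).

Plan. `M = wts wt = image of j ↦ toV (wt j)` (`toV` is injective). For `f : V n → ℝ`:
`∑ j, f (toV (wt j)) * g j = ∑ m ∈ M, f m * ∑ j with toV (wt j) = m, g j` (`Finset.sum_fiberwise_of_maps_to`).
`‖Z j‖^2 = exp (2 ⟪toV (wt j), reV (ww z)⟫) * ‖q j (uu z)‖^2` (`Complex.norm_exp`), and with `hN`: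
`∑ j with wt j = m, ‖Z j‖^2 = exp (2 ⟪m, xv ν z⟫ + ν0 (uu z))`. Sum over `m ∈ M`: `‖Z‖^2 = exp (2 lse M (xv ν z) + ν0 (uu z))`
(`exp_lse`). So `(∑ j with wt j = m, ‖Z j‖^2) = (‖Z‖ * bb M m (xv ν z))^2`.
`bd_le`: `‖⟪Z, Z'⟫‖ ≤ ∑ j ‖Z j‖ ‖Z' j‖ = ∑ m ∈ M, ∑ j with .. ≤ ∑ m ∈ M, ‖Z‖ bb m x * ‖Z'‖ bb m x'`
(Cauchy-Schwarz on each fibre, `Finset.sum_mul_le_sqrt_mul_sqrt` or `inner_mul_le_norm_mul_norm`), then as in
`bd_le_fsDist`. `fun j => ..` for `q ` arbitrary; `J` nonempty.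
-/

set_option autoImplicit false

open MeasureTheory
open scoped InnerProductSpace ComplexOrder

namespace Pool.Agent.LibHK65

open Pool.Agent.LibTK94

private theorem C6_inj {n : ℕ} : Function.Injective (toV : (Fin n → ℤ) → V n) := by
  intro a b h
  funext j
  have h1 : ((a j : ℤ) : ℝ) = ((b j : ℤ) : ℝ) := congrFun (congrArg WithLp.ofLp h) j
  exact_mod_cast h1

private theorem C6_mem {n : ℕ} {J : Type} [Fintype J] (wt : J → Fin n → ℤ) (j : J) :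
    toV (wt j) ∈ wts wt := by
  classical
  unfold wts
  exact Finset.mem_image_of_mem _ (Finset.mem_univ j)

private theorem C6_ne {n : ℕ} {J : Type} [Fintype J] [Nonempty J] (wt : J → Fin n → ℤ) :
    (wts wt).Nonempty := ⟨_, C6_mem wt (Classical.arbitrary J)⟩

private theorem C6_sum {n : ℕ} {J : Type} [Fintype J] (wt : J → Fin n → ℤ) (g : J → ℝ) :
    open Classical in ∑ j, g j = ∑ m ∈ wts wt, ∑ j with toV (wt j) = m, g j := by
  classical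
  rw [Finset.sum_fiberwise_of_maps_to (s := Finset.univ) (t := wts wt) (g := fun j => toV (wt j))
    (fun j _ => C6_mem wt j)]

private theorem C6_exists {n : ℕ} {J : Type} [Fintype J] {wt : J → Fin n → ℤ} {m : V n}
    (hm : m ∈ wts wt) : ∃ i, toV (wt i) = m := by
  classical
  unfold wts at hm
  obtain ⟨i, _, hi⟩ := Finset.mem_image.1 hm
  exact ⟨i, hi⟩

private theorem C6_normj {n d : ℕ} {J : Type} [Fintype J] (wt : J → Fin n → ℤ)
    (q : J → (Fin d → ℂ) → ℂ) (z : Fin n ⊕ Fin d → ℂ) (j : J) :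
    ‖(Zh wt q z) j‖ = Real.exp (∑ k, (wt j k : ℝ) * (z (Sum.inl k)).re) * ‖q j (uu z)‖ := by
  have h : (Zh wt q z) j = Complex.exp (∑ k, (wt j k : ℂ) * z (Sum.inl k)) * q j (uu z) := rfl
  rw [h, norm_mul, Complex.norm_exp, Complex.re_sum]
  congr 2
  refine Finset.sum_congr rfl fun k _ => ?_
  simp

private theorem C6_fib {n d : ℕ} {J : Type} [Fintype J] {wt : J → Fin n → ℤ}
    {q : J → (Fin d → ℂ) → ℂ} {ν : (Fin d → ℂ) → Fin n → ℝ} {ν0 : (Fin d → ℂ) → ℝ}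
    (hN : ∀ (i : J) (u : Fin d → ℂ), ∑ j with wt j = wt i, ‖q j u‖ ^ 2 =
      Real.exp (∑ k, (wt i k : ℝ) * ν u k + ν0 u)) (z : Fin n ⊕ Fin d → ℂ) (m : V n)
    (hm : m ∈ wts wt) :
    open Classical in ∑ j with toV (wt j) = m, ‖(Zh wt q z) j‖ ^ 2 =
      Real.exp (2 * ⟪m, xv ν z⟫_ℝ + ν0 (uu z)) := by
  classical
  obtain ⟨i, rfl⟩ := C6_exists hm
  have e1 : (Finset.univ.filter fun j => toV (wt j) = toV (wt i)) =
      Finset.univ.filter fun j => wt j = wt i := by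
    ext j
    simp only [Finset.mem_filter, Finset.mem_univ, true_and]
    exact ⟨fun h => C6_inj h, fun h => by rw [h]⟩
  rw [e1]
  have e2 : ∀ j ∈ Finset.univ.filter (fun j => wt j = wt i), ‖(Zh wt q z) j‖ ^ 2 =
      Real.exp (2 * ∑ k, (wt i k : ℝ) * (z (Sum.inl k)).re) * ‖q j (uu z)‖ ^ 2 := by
    intro j hj
    have hj' : wt j = wt i := (Finset.mem_filter.1 hj).2
    rw [C6_normj, mul_pow, hj', ← Real.exp_nat_mul]
    norm_num
  rw [Finset.sum_congr rfl e2, ← Finset.mul_sum]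
  have e3 := hN i (uu z)
  have e4 : ∑ j with wt j = wt i, ‖q j (uu z)‖ ^ 2 =
      Real.exp (∑ k, (wt i k : ℝ) * ν (uu z) k + ν0 (uu z)) := by
    rw [← e3]
  rw [e4, ← Real.exp_add]
  congr 1
  have e5 : ⟪toV (wt i), xv ν z⟫_ℝ = ∑ k, (wt i k : ℝ) * ((z (Sum.inl k)).re + ν (uu z) k / 2) := by
    rw [PiLp.inner_apply]
    refine Finset.sum_congr rfl fun k _ => ?_
    simp [toV, xv, mul_comm]
  rw [e5, Finset.mul_sum, Finset.mul_sum]
  rw [← add_assoc, ← Finset.sum_add_distrib]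
  congr 1
  refine Finset.sum_congr rfl fun k _ => ?_
  ring

theorem spans_wts {n : ℕ} {J : Type} [Fintype J] {wt : J → Fin n → ℤ}
    (h : ∀ x : Fin n → ℝ, (∀ i j : J, ∑ k, ((wt i k : ℝ) - (wt j k : ℝ)) * x k = 0) → x = 0) :
    Spans (wts wt) := by
  intro x hx
  have h1 : WithLp.ofLp x = 0 := by
    refine h _ fun i j => ?_
    have h2 := hx (toV (wt i)) (C6_mem wt i) (toV (wt j)) (C6_mem wt j)
    rw [PiLp.inner_apply] at h2
    rw [← h2]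
    refine Finset.sum_congr rfl fun k _ => ?_
    simp [toV, mul_comm]
  ext j
  exact congrFun h1 j

theorem norm_Zh {n d : ℕ} {J : Type} [Fintype J] [Nonempty J] {wt : J → Fin n → ℤ}
    {q : J → (Fin d → ℂ) → ℂ} {ν : (Fin d → ℂ) → Fin n → ℝ} {ν0 : (Fin d → ℂ) → ℝ}
    (hN : ∀ (i : J) (u : Fin d → ℂ), ∑ j with wt j = wt i, ‖q j u‖ ^ 2 =
      Real.exp (∑ k, (wt i k : ℝ) * ν u k + ν0 u)) (z : Fin n ⊕ Fin d → ℂ) :
    ‖Zh wt q z‖ ^ 2 = Real.exp (2 * lse (wts wt) (xv ν z) + ν0 (uu z)) := by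
  classical
  rw [EuclideanSpace.norm_sq_eq, C6_sum wt]
  rw [Finset.sum_congr rfl fun m hm => C6_fib hN z m hm]
  rw [Real.exp_add, exp_lse (C6_ne wt), Finset.sum_mul]
  refine Finset.sum_congr rfl fun m _ => ?_
  rw [Real.exp_add]

theorem bd_le_fsDist' {n d : ℕ} {J : Type} [Fintype J] [Nonempty J] {wt : J → Fin n → ℤ}
    {q : J → (Fin d → ℂ) → ℂ} {ν : (Fin d → ℂ) → Fin n → ℝ} {ν0 : (Fin d → ℂ) → ℝ}
    (hN : ∀ (i : J) (u : Fin d → ℂ), ∑ j with wt j = wt i, ‖q j u‖ ^ 2 =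
      Real.exp (∑ k, (wt i k : ℝ) * ν u k + ν0 u)) (z z' : Fin n ⊕ Fin d → ℂ) :
    bd (wts wt) (xv ν z) (xv ν z') ≤ fsDist (Zh wt q z) (Zh wt q z') := by
  classical
  have hM := C6_ne wt
  have hZn : ∀ z : Fin n ⊕ Fin d → ℂ, ‖Zh wt q z‖ = Real.exp (lse (wts wt) (xv ν z) + ν0 (uu z) / 2) := by
    intro z
    have h1 := norm_Zh hN z
    have h2 : Real.exp (2 * lse (wts wt) (xv ν z) + ν0 (uu z)) =
        Real.exp (lse (wts wt) (xv ν z) + ν0 (uu z) / 2) ^ 2 := by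
      rw [← Real.exp_nat_mul]
      congr 1
      push_cast
      ring
    rw [h2] at h1
    exact (pow_left_inj₀ (norm_nonneg _) (Real.exp_pos _).le two_ne_zero).1 h1
  have hfib : ∀ (z : Fin n ⊕ Fin d → ℂ) (m : V n), m ∈ wts wt →
      √(∑ j with toV (wt j) = m, ‖(Zh wt q z) j‖ ^ 2) = ‖Zh wt q z‖ * bb (wts wt) m (xv ν z) := by
    intro z m hm
    rw [C6_fib hN z m hm, hZn]
    unfold bb
    rw [← Real.exp_add]
    have h2 : Real.exp (2 * ⟪m, xv ν z⟫_ℝ + ν0 (uu z)) =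
        Real.exp (lse (wts wt) (xv ν z) + ν0 (uu z) / 2 + (⟪m, xv ν z⟫_ℝ - lse (wts wt) (xv ν z))) ^ 2 := by
      rw [← Real.exp_nat_mul]
      congr 1
      push_cast
      ring
    rw [h2]
    exact Real.sqrt_sq (Real.exp_pos _).le
  have hsa := sum_bb_sq hM (xv ν z)
  have hsb := sum_bb_sq hM (xv ν z')
  have hZ0 : 0 < ‖Zh wt q z‖ := by rw [hZn]; exact Real.exp_pos _
  have hZ0' : 0 < ‖Zh wt q z'‖ := by rw [hZn]; exact Real.exp_pos _
  have h1 : ‖⟪Zh wt q z, Zh wt q z'⟫_ℂ‖ ≤ ‖Zh wt q z‖ * ‖Zh wt q z'‖ *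
      ∑ m ∈ wts wt, bb (wts wt) m (xv ν z) * bb (wts wt) m (xv ν z') := by
    rw [PiLp.inner_apply]
    refine (norm_sum_le _ _).trans ?_
    have h2 : ∑ j, ‖⟪(Zh wt q z) j, (Zh wt q z') j⟫_ℂ‖ ≤ ∑ j, ‖(Zh wt q z) j‖ * ‖(Zh wt q z') j‖ :=
      Finset.sum_le_sum fun j _ => norm_inner_le_norm _ _
    refine h2.trans ?_
    rw [C6_sum wt, Finset.mul_sum]
    refine Finset.sum_le_sum fun m hm => ?_
    refine (Real.sum_mul_le_sqrt_mul_sqrt _ _ _).trans ?_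
    rw [hfib z m hm, hfib z' m hm]
    apply le_of_eq
    ring
  unfold bd fsDist
  set p : ℝ := ‖⟪Zh wt q z, Zh wt q z'⟫_ℂ‖ / (‖Zh wt q z‖ * ‖Zh wt q z'‖) with hp
  have hpos : 0 < ‖Zh wt q z‖ * ‖Zh wt q z'‖ := mul_pos hZ0 hZ0'
  have hq0 : 0 ≤ p := div_nonneg (norm_nonneg _) hpos.le
  have hq1 : p ≤ 1 := by
    rw [hp, div_le_one hpos]
    exact norm_inner_le_norm _ _
  have hq2 : p ≤ ∑ m ∈ wts wt, bb (wts wt) m (xv ν z) * bb (wts wt) m (xv ν z') := by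
    rw [hp, div_le_iff₀ hpos, mul_comm]
    exact h1
  have hcos : Real.cos (Real.arccos p) = p := Real.cos_arccos (by linarith) hq1
  have hle := Real.one_sub_sq_div_two_le_cos (x := Real.arccos p)
  rw [hcos] at hle
  rw [Real.sqrt_le_iff]
  refine ⟨Real.arccos_nonneg p, ?_⟩
  have h3 : ∑ m ∈ wts wt, (bb (wts wt) m (xv ν z) - bb (wts wt) m (xv ν z')) ^ 2 =
      ∑ m ∈ wts wt, bb (wts wt) m (xv ν z) ^ 2 + ∑ m ∈ wts wt, bb (wts wt) m (xv ν z') ^ 2 -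
        2 * ∑ m ∈ wts wt, bb (wts wt) m (xv ν z) * bb (wts wt) m (xv ν z') := by
    rw [Finset.mul_sum, ← Finset.sum_add_distrib, ← Finset.sum_sub_distrib]
    refine Finset.sum_congr rfl fun m _ => ?_
    ring
  rw [h3, hsa, hsb]
  linarith

end Pool.Agent.LibHK65
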