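import Pool.Agent.LibTK94.Both

/-!
# Invariant metrics on horospherical varieties: definitions (helper65)

Coordinates `z = (w, u) ∈ ℂⁿ × ℂᵈ` on the big cell of a horospherical variety: `w` are the
logarithmic coordinates of the torus, `u` the coordinates of the opposite unipotent group.
-/

set_option autoImplicit false

open MeasureTheory
open scoped InnerProductSpace ComplexOrder

namespace Pool.Agent.LibHK65

open Pool.Agent.LibTK94

/-- The complex Hessian matrix `∂²F/∂z_j∂z̄_k`. -/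
noncomputable def lev {ι : Type} [Fintype ι] [DecidableEq ι] (F : (ι → ℂ) → ℝ) (z : ι → ℂ) :
    Matrix ι ι ℂ :=
  Matrix.of fun j k => (1 / 4 : ℂ) *
    (((D2 F z (Pi.single j 1) (Pi.single k 1) +
        D2 F z (Pi.single j Complex.I) (Pi.single k Complex.I) : ℝ) : ℂ) +
      Complex.I * ((D2 F z (Pi.single j 1) (Pi.single k Complex.I) -
        D2 F z (Pi.single j Complex.I) (Pi.single k 1) : ℝ) : ℂ))

/-- The homogeneous coordinates `exp ⟨wt j, w⟩ q_j(u)`. -/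
noncomputable def Zh {n d : ℕ} {J : Type} [Fintype J] (wt : J → Fin n → ℤ)
    (q : J → (Fin d → ℂ) → ℂ) (z : Fin n ⊕ Fin d → ℂ) : EuclideanSpace ℂ J :=
  WithLp.toLp 2 fun j => Complex.exp (∑ k, (wt j k : ℂ) * z (Sum.inl k)) *
    q j (fun l => z (Sum.inr l))

/-- The potential relative to the Fubini–Study metric: `Φ - c log ‖Z‖²`. -/
noncomputable def relh {n d : ℕ} {J : Type} [Fintype J] (wt : J → Fin n → ℤ)
    (q : J → (Fin d → ℂ) → ℂ) (c : ℝ) (Φ : (Fin n ⊕ Fin d → ℂ) → ℝ) (z : Fin n ⊕ Fin d → ℂ) : ℝ :=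
  Φ z - c * Real.log (‖Zh wt q z‖ ^ 2)

/-! ### tools -/

/-- `w`-part -/
def ww {n d : ℕ} (z : Fin n ⊕ Fin d → ℂ) : Fin n → ℂ := fun k => z (Sum.inl k)

/-- `u`-part -/
def uu {n d : ℕ} (z : Fin n ⊕ Fin d → ℂ) : Fin d → ℂ := fun l => z (Sum.inr l)

/-- The point `(w, 0)`. -/
def sl {n d : ℕ} (w : Fin n → ℂ) : Fin n ⊕ Fin d → ℂ := Sum.elim w 0

/-- `x(z) = Re w + ν(u) / 2` -/
noncomputable def xv {n d : ℕ} (ν : (Fin d → ℂ) → Fin n → ℝ) (z : Fin n ⊕ Fin d → ℂ) : V n :=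
  WithLp.toLp 2 fun k => (z (Sum.inl k)).re + ν (uu z) k / 2

/-- The set of weights, as real vectors. -/
noncomputable def wts {n : ℕ} {J : Type} [Fintype J] (wt : J → Fin n → ℤ) : Finset (V n) := by
  classical exact Finset.univ.image fun j => toV (wt j)

/-- The function `W` on the hull of `M` is bounded below by `(δ s)^d` at the points
`(1 - s) p + s q'`, `q'` in a fixed ball. -/
def Low {n : ℕ} (M : Finset (V n)) (W : V n → ℝ) (d : ℕ) : Prop :=
  ∃ q0 : V n, ∃ ρ > (0 : ℝ), ∃ δ > (0 : ℝ),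
    Metric.ball q0 ρ ⊆ interior (convexHull ℝ (M : Set (V n))) ∧
    ∀ p ∈ convexHull ℝ (M : Set (V n)), ∀ q' ∈ Metric.ball q0 ρ, ∀ s : ℝ, 0 ≤ s → s ≤ 1 →
      (δ * s) ^ d ≤ W ((1 - s) • p + s • q')

/-- The matrix of the `u`-directions: `∑ p_k/2 · levi ν_k(0) + c · levi ν0(0)`. -/
noncomputable def Au {n d : ℕ} (c : ℝ) (ν : (Fin d → ℂ) → Fin n → ℝ) (ν0 : (Fin d → ℂ) → ℝ)
    (p : V n) : Matrix (Fin d) (Fin d) ℂ :=
  (∑ k, ((p k / 2 : ℝ) : ℂ) • lev (fun u => ν u k) 0) + (c : ℂ) • lev ν0 0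

end Pool.Agent.LibHK65
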