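import Pool.Agent.LibHK65.A2
import Pool.Agent.LibHK65.A4
import Pool.Agent.LibHK65.C3
import Pool.Agent.LibHK65.C4
import Pool.Agent.LibHK65.C5
import Pool.Agent.LibHK65.C6

/-!
# Assembly (helper65)
-/

set_option autoImplicit false

open MeasureTheory
open scoped InnerProductSpace ComplexOrder

namespace Pool.Agent.LibHK65

open Pool.Agent.LibTK94

theorem xv_sl {n d : ℕ} {ν : (Fin d → ℂ) → Fin n → ℝ} (h1 : ν 0 = 0) (w : Fin n → ℂ) :
    xv ν (sl w) = reV w := by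
  ext k
  show ((sl w : Fin n ⊕ Fin d → ℂ) (Sum.inl k)).re + ν (uu (sl w)) k / 2 = (w k).re
  have h2 : (uu (sl w : Fin n ⊕ Fin d → ℂ)) = 0 := rfl
  rw [h2, h1]
  simp [sl]

theorem contDiff_sl_ofR {n d : ℕ} (m : ℕ) :
    ContDiff ℝ m (fun x : V n => (sl (ofR x) : Fin n ⊕ Fin d → ℂ)) := by
  rw [contDiff_pi]
  rintro (k | l)
  · have h : ContDiff ℝ m (fun x : V n => ((x k : ℝ) : ℂ)) :=
      (Complex.ofRealCLM.comp (EuclideanSpace.proj (𝕜 := ℝ) k)).contDiff
    exact h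
  · exact contDiff_const

theorem continuous_W {n d : ℕ} (A0 : Matrix (Fin d) (Fin d) ℂ)
    (A1 : Fin n → Matrix (Fin d) (Fin d) ℂ) :
    Continuous (fun p : V n => (A0 + ∑ k, ((p k : ℝ) : ℂ) • A1 k).det.re) := by
  refine Complex.continuous_re.comp (Continuous.matrix_det ?_)
  refine continuous_const.add (continuous_finsetSum _ fun k _ => ?_)
  have h : Continuous fun p : V n => ((p k : ℝ) : ℂ) :=
    Complex.continuous_ofReal.comp (EuclideanSpace.proj (𝕜 := ℝ) k).continuous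
  exact h.smul continuous_const

theorem horo_holder (n d : ℕ) (J : Type) [Fintype J] (wt : J → Fin n → ℤ)
    (hS : ∀ x : Fin n → ℝ, (∀ i j : J, ∑ k, ((wt i k : ℝ) - (wt j k : ℝ)) * x k = 0) → x = 0)
    (q : J → (Fin d → ℂ) → ℂ) (ν : (Fin d → ℂ) → Fin n → ℝ) (ν0 : (Fin d → ℂ) → ℝ)
    (hν : ContDiff ℝ 2 ν) (hν0 : ContDiff ℝ 2 ν0) (h1 : ν 0 = 0) (h10 : ν0 0 = 0)
    (h2 : fderiv ℝ ν 0 = 0)
    (hN : ∀ (i : J) (u : Fin d → ℂ), ∑ j with wt j = wt i, ‖q j u‖ ^ 2 =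
      Real.exp (∑ k, (wt i k : ℝ) * ν u k + ν0 u))
    (c : ℝ) (hc : 0 < c) (lam : ℝ) (Φ : (Fin n ⊕ Fin d → ℂ) → ℝ) (hΦ : ContDiff ℝ 4 Φ)
    (hinv : ∀ z z' : Fin n ⊕ Fin d → ℂ,
      (∀ k, 2 * (z (Sum.inl k)).re + ν (uu z) k = 2 * (z' (Sum.inl k)).re + ν (uu z') k) →
      relh wt q c Φ z = relh wt q c Φ z')
    (hpos : ∀ z, (lev Φ z).PosDef)
    (hbd : ∃ C0 : ℝ, ∀ z, |relh wt q c Φ z| ≤ C0)
    (hKE : ∀ z, lev (fun z => Real.log (lev Φ z).det.re) z = (-(lam : ℂ)) • lev Φ z) :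
    ∃ C > (0 : ℝ), ∃ α > (0 : ℝ), ∀ z z' : Fin n ⊕ Fin d → ℂ,
      |relh wt q c Φ z - relh wt q c Φ z'| ≤ C * fsDist (Zh wt q z) (Zh wt q z') ^ α := by
  have hfs : ∀ z z', 0 ≤ fsDist (Zh wt q z) (Zh wt q z') := fun z z' => Real.arccos_nonneg _
  rcases Nat.eq_zero_or_pos n with hn | hn
  · subst hn
    refine ⟨1, one_pos, 1, one_pos, fun z z' => ?_⟩
    rw [hinv z z' (fun k => k.elim0), sub_self, abs_zero]
    exact mul_nonneg zero_le_one (Real.rpow_nonneg (hfs _ _) _)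
  have hn0 : n ≠ 0 := hn.ne'
  have hJ : Nonempty J := by
    by_contra hJ
    rw [not_nonempty_iff] at hJ
    have h3 := hS (fun _ => 1) (fun i => (hJ.false i).elim)
    have h4 := congrFun h3 ⟨0, hn⟩
    simp at h4
  have hM : (wts wt).Nonempty := by
    classical
    unfold wts
    exact Finset.univ_nonempty.image _
  have hSp : Spans (wts wt) := spans_wts hS
  obtain ⟨C0, hC0⟩ := hbd
  have hrel0 : ∀ z, relh wt q c Φ z = Φ z - c * (2 * lse (wts wt) (xv ν z) + ν0 (uu z)) := by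
    intro z
    unfold relh
    rw [norm_Zh hN, Real.log_exp]
  -- the real function
  obtain ⟨U, hU⟩ : ∃ U : V n → ℝ, U = fun x => Φ (sl (ofR x)) := ⟨_, rfl⟩
  have hxsl : ∀ x : V n, xv ν (sl (ofR x)) = x := fun x => by rw [xv_sl h1, reV_ofR]
  have huu : ∀ w : Fin n → ℂ, uu (sl w : Fin n ⊕ Fin d → ℂ) = 0 := fun _ => rfl
  have hΦU : Φ = fun z => U (xv ν z) + c * ν0 (uu z) := by
    funext z
    have h3 := hinv z (sl (ofR (xv ν z))) (by
      intro k
      rw [huu, h1]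
      simp only [xv, sl, ofR, Sum.elim_inl, Complex.ofReal_re, Pi.zero_apply]
      ring)
    rw [hrel0, hrel0, hxsl, huu, h10] at h3
    rw [hU]
    simp only
    linarith
  have hrel : ∀ z, relh wt q c Φ z = U (xv ν z) - 2 * c * lse (wts wt) (xv ν z) := by
    intro z
    rw [hrel0, congrFun hΦU z]
    ring
  have hU4 : ContDiff ℝ 4 U := by
    rw [hU]
    exact hΦ.comp (contDiff_sl_ofR 4)
  have hU2 : ContDiff ℝ 2 U := hU4.of_le (by norm_num)
  obtain ⟨t, ht⟩ : ∃ t : ℝ, t = (2 * c)⁻¹ := ⟨_, rfl⟩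
  have ht0 : 0 < t := by rw [ht]; positivity
  have htc : 2 * c * t = 1 := by rw [ht]; field_simp
  have hB : ∀ x, |t * U x - lse (wts wt) x| ≤ t * C0 := by
    intro x
    have h3 := hC0 (sl (ofR x))
    rw [hrel, hxsl] at h3
    have h4 : t * U x - lse (wts wt) x = t * (U x - 2 * c * lse (wts wt) x) := by
      rw [mul_sub, ← mul_assoc, show t * (2 * c) = 1 by rw [mul_comm]; exact htc, one_mul]
    rw [h4, abs_mul, abs_of_pos ht0]
    exact mul_le_mul_of_nonneg_left h3 ht0.le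
  -- transfer of the conclusion
  have key : (∃ C > (0 : ℝ), ∃ α > (0 : ℝ), ∀ x y : V n,
      |(t * U x - lse (wts wt) x) - (t * U y - lse (wts wt) y)| ≤
        C * (bd (wts wt) x y) ^ α) →
      ∃ C > (0 : ℝ), ∃ α > (0 : ℝ), ∀ z z' : Fin n ⊕ Fin d → ℂ,
        |relh wt q c Φ z - relh wt q c Φ z'| ≤ C * fsDist (Zh wt q z) (Zh wt q z') ^ α := by
    rintro ⟨C, hC, α, hα, h⟩
    refine ⟨2 * c * C, by positivity, α, hα, fun z z' => ?_⟩
    have h3 := h (xv ν z) (xv ν z')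
    have h4 : ∀ z, relh wt q c Φ z = 2 * c * (t * U (xv ν z) - lse (wts wt) (xv ν z)) := by
      intro z
      rw [hrel, mul_sub, ← mul_assoc, htc, one_mul]
    rw [h4, h4, ← mul_sub, abs_mul, abs_of_pos (by positivity : 0 < 2 * c), mul_assoc (2 * c) C]
    refine mul_le_mul_of_nonneg_left (h3.trans ?_) (by positivity)
    exact mul_le_mul_of_nonneg_left
      (Real.rpow_le_rpow (bd_nonneg _ _) (bd_le_fsDist' hN z z') hα.le) hC.le
  -- the Hessian on the slice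
  have hlev : ∀ x : V n, lev Φ (sl (ofR x)) =
      Matrix.fromBlocks ((Hm U x).map (fun r => (((1 / 4 : ℝ) * r : ℝ) : ℂ))) 0 0
        (Au c ν ν0 (gradient U x)) := by
    intro x
    have h3 := lev_slice hU2 c hν hν0 h2 (ofR x)
    rw [← hΦU, hxsl] at h3
    exact h3
  have hpp : ∀ x, (Hm U x).PosDef ∧ (Au c ν ν0 (gradient U x)).PosDef := fun x =>
    posDef_blocks (by rw [← hlev]; exact hpos _)
  have hReg : Reg (fun x => t * U x) (fun x => t • gradient U x) (fun x => t • Hm U x) :=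
    (reg_of_contDiff hU2 fun x => (hpp x).1).smul ht0
  -- the weight
  obtain ⟨A0, hA0⟩ : ∃ A0 : Matrix (Fin d) (Fin d) ℂ, A0 = (c : ℂ) • lev ν0 0 := ⟨_, rfl⟩
  obtain ⟨A1, hA1⟩ : ∃ A1 : Fin n → Matrix (Fin d) (Fin d) ℂ,
      A1 = fun k => ((c : ℝ) : ℂ) • lev (fun u => ν u k) 0 := ⟨_, rfl⟩
  have hAu : ∀ p : V n, A0 + ∑ k, (((t • p) k : ℝ) : ℂ) • A1 k = Au c ν ν0 p := by
    intro p
    unfold Au
    rw [hA0, hA1, add_comm]
    congr 1
    refine Finset.sum_congr rfl fun k _ => ?_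
    rw [smul_smul, ← Complex.ofReal_mul]
    congr 2
    show t * p k * c = p k / 2
    have : t * p k * c = (2 * c * t) * (p k / 2) := by ring
    rw [this, htc, one_mul]
  have hνk : ∀ k, ContDiff ℝ 2 (fun u => ν u k) := fun k => contDiff_pi.1 hν k
  have hH0 : A0.IsHermitian := by
    rw [hA0]
    have h3 := lev_herm hν0 (0 : Fin d → ℂ)
    rw [Matrix.IsHermitian, Matrix.conjTranspose_smul, h3]
    congr 1
    exact Complex.conj_ofReal _
  have hH1 : ∀ k, (A1 k).IsHermitian := by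
    intro k
    rw [hA1]
    have h3 := lev_herm (hνk k) (0 : Fin d → ℂ)
    show (((c : ℝ) : ℂ) • lev (fun u => ν u k) 0).IsHermitian
    rw [Matrix.IsHermitian, Matrix.conjTranspose_smul, h3]
    congr 1
    exact Complex.conj_ofReal _
  have hlow := low_of_affine hM hSp A0 A1 hH0 hH1 (by
    intro p hp
    obtain ⟨y, hy⟩ := surj_of_interior hM hReg.grad (C0 := t * C0) (fun x => by
      have h3 := (abs_le.1 (hB x)).1
      linarith) hp
    rw [← hy, hAu]
    exact (hpp y).2)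
  obtain ⟨B, hWB⟩ : ∃ B : ℝ, ∀ p ∈ convexHull ℝ ((wts wt : Finset (V n)) : Set (V n)),
      (A0 + ∑ k, ((p k : ℝ) : ℂ) • A1 k).det.re ≤ B := by
    have hK : IsCompact (convexHull ℝ ((wts wt : Finset (V n)) : Set (V n))) :=
      (wts wt).finite_toSet.isCompact_convexHull (𝕜 := ℝ)
    obtain ⟨B, hB'⟩ := hK.bddAbove_image (continuous_W A0 A1).continuousOn
    exact ⟨B, fun p hp => hB' ⟨p, hp, rfl⟩⟩
  have hWx : ∀ x, (A0 + ∑ k, (((t • gradient U x) k : ℝ) : ℂ) • A1 k).det.re =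
      (Au c ν ν0 (gradient U x)).det.re := fun x => by rw [hAu]
  have hdetpos : ∀ x, 0 < (Au c ν ν0 (gradient U x)).det.re := fun x =>
    (Complex.pos_iff.1 (hpp x).2.det_pos).1
  -- the affine relation
  obtain ⟨Ld, hLd⟩ : ∃ Ld : V n → ℝ, Ld = fun x => Real.log (lev Φ (sl (ofR x))).det.re :=
    ⟨_, rfl⟩
  have hlogC := contDiff_log_lev hΦ hpos
  have hLdC : ContDiff ℝ 2 Ld := by
    rw [hLd]
    exact hlogC.comp (contDiff_sl_ofR 2)
  have hreal : ∀ w : Fin n → ℂ, lev Φ (sl w) = lev Φ (sl (ofR (reV w))) := by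
    intro w
    have h3 := lev_slice hU2 c hν hν0 h2 w
    rw [← hΦU, xv_sl h1] at h3
    rw [h3, hlev]
  obtain ⟨b, a, hba⟩ := affine_of_slice (h := fun z => Real.log (lev Φ z).det.re) (Φ := Φ)
    (Ld := Ld) (U := U) (lam := lam) hlogC (hΦ.of_le (by norm_num)) hLdC hU2
    (by
      intro w
      rw [hLd, hreal w])
    (by
      intro w
      rw [congrFun hΦU (sl w)]
      rw [xv_sl h1, huu, h10, mul_zero, add_zero])
    (by
      intro w j k
      rw [hKE]
      rfl)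
  refine key (holder_of_weighted hn0 hM hSp hReg hB hlow hWB (fun x => ?_)
    (lam := 2 * c * lam) (b := b) (a := a + (n * Real.log t - n * Real.log (1 / 4))) fun x => ?_)
  · rw [hWx]
    exact hdetpos x
  · rw [hWx, Matrix.det_smul, Fintype.card_fin]
    have h3 := hba x
    rw [hLd] at h3
    simp only at h3
    rw [hlev, det_block_re _ (Au_herm c hν hν0 _)] at h3
    have hd1 := (hpp x).1.det_pos
    have hd2 := hdetpos x
    rw [Real.log_mul (by positivity) hd2.ne', Real.log_mul (by positivity) hd1.ne',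
      Real.log_pow] at h3
    rw [Real.log_mul (by positivity) hd2.ne', Real.log_mul (by positivity) hd1.ne', Real.log_pow]
    have h5 : 2 * c * lam * (t * U x) = lam * U x := by
      rw [show 2 * c * lam * (t * U x) = (2 * c * t) * (lam * U x) by ring, htc, one_mul]
    rw [h5]
    linarith

end Pool.Agent.LibHK65
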